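import Pool.Agent.Lib.MP_45c416_gt.Seq

open TopologicalSpace Set

namespace Pool.Agent.Lib.MP_45c416_gt

variable {S : Type*} [TopologicalSpace S]

/-- All end points of the list are ordinals below `δ`. -/
def Low (δ : II) (L : List (II × WithTop II)) : Prop :=
  ∀ e ∈ L, e.1 < δ ∧ ∃ q < δ, e.2 = (q : WithTop II)

theorem exists_level (f : ℚ → ℝ) (m : ℕ) (hm : 0 < m) : ∃ j < m,
    (f 1 - f 0) / m ≤ f (((j + 1 : ℕ) : ℚ) / m) - f ((j : ℚ) / m) := by
  by_contra hno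
  push Not at hno
  have h1 := Finset.sum_range_sub (fun j : ℕ => f ((j : ℚ) / m)) m
  have h2 : ∑ j ∈ Finset.range m, (f (((j + 1 : ℕ) : ℚ) / m) - f ((j : ℚ) / m)) <
      ∑ j ∈ Finset.range m, (f 1 - f 0) / m := by
    apply Finset.sum_lt_sum_of_nonempty
    · exact ⟨0, Finset.mem_range.mpr hm⟩
    · intro j hj
      exact hno j (Finset.mem_range.mp hj)
  rw [h1] at h2
  have hm' : (m : ℚ) ≠ 0 := by positivity
  have hm'' : (m : ℝ) ≠ 0 := by positivity
  rw [div_self hm', Nat.cast_zero, zero_div, Finset.sum_const, Finset.card_range, nsmul_eq_mul,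
    mul_div_cancel₀ _ hm''] at h2
  exact lt_irrefl _ h2

theorem Data.exists_base (d : Data S) (δ s0 : II) (N : ℕ) :
    ∃ (u v : ℚ) (t : ℕ) (Ls : List (II × WithTop II)),
      (0 ≤ u ∧ u ≤ 1) ∧ (0 ≤ v ∧ v ≤ 1) ∧ Low δ Ls ∧
      (∀ L' : List (II × WithTop II), L'.length ≤ Ls.length + N + 1 →
        (⟨s0, L', u, v⟩ : Code II).fn ∈ KSet II) ∧
      (∀ L' : List (II × WithTop II), Low δ L' → L'.length ≤ Ls.length + N →
        nrm (d.val ⟨s0, L', u, v⟩) ≤ nrm (d.val ⟨s0, Ls, u, v⟩) + 1 / ((t : ℝ) + 1)) ∧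
      2 * ((N : ℝ) + 1) * (1 / ((t : ℝ) + 1)) < d.G δ v - d.G δ u := by
  set ε : ℝ := d.G δ 1 - d.G δ 0 with hε
  have hεpos : 0 < ε := by
    have := d.hW δ
    rw [hε]
    unfold Data.G
    linarith
  obtain ⟨E, hE⟩ := exists_nat_gt (1 / ε)
  have hEε : 1 < E * ε := by
    rw [div_lt_iff₀ hεpos] at hE
    exact hE
  set m : ℕ := 4 * (2 * N + 2) * N * E + 6 * N + 2 with hm
  have hmpos : 0 < m := by omega
  set t : ℕ := (2 * N + 2) * m * E with ht
  obtain ⟨j, hj, hjG⟩ := exists_level (fun r => d.G δ r) m hmpos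
  set u : ℚ := (j : ℚ) / m with hu
  set v : ℚ := ((j + 1 : ℕ) : ℚ) / m with hv
  have hmQ : (0 : ℚ) < m := by exact_mod_cast hmpos
  have hmR : (0 : ℝ) < m := by exact_mod_cast hmpos
  have hu0 : 0 ≤ u := by positivity
  have hv0 : 0 ≤ v := by positivity
  have hu1 : u ≤ 1 := by
    rw [hu, div_le_one hmQ]
    exact_mod_cast hj.le
  have hv1 : v ≤ 1 := by
    rw [hv, div_le_one hmQ]
    exact_mod_cast hj
  have huv : |(u : ℝ) - v| ≤ 1 / (m : ℝ) := by
    have : (u : ℝ) - v = -(1 / (m : ℝ)) := by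
      rw [hu, hv]
      push_cast
      field_simp
      ring
    rw [this, abs_neg, abs_of_pos (by positivity)]
  have hgap : 2 * ((N : ℝ) + 1) * (1 / ((t : ℝ) + 1)) < d.G δ v - d.G δ u := by
    refine lt_of_lt_of_le ?_ hjG
    show 2 * ((N : ℝ) + 1) * (1 / ((t : ℝ) + 1)) < ε / m
    have ht1 : (0 : ℝ) < (t : ℝ) + 1 := by positivity
    rw [mul_one_div, div_lt_div_iff₀ ht1 hmR]
    have ht2 : (t : ℝ) = (2 * N + 2) * m * E := by rw [ht]; push_cast; ring
    rw [ht2]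
    have h1 : (2 * ((N : ℝ) + 1)) * m * 1 < (2 * ((N : ℝ) + 1)) * m * (E * ε) :=
      mul_lt_mul_of_pos_left hEε (by positivity)
    nlinarith
  -- the near-maximisation
  set M : ℕ → Set ℝ := fun k => {r | ∃ L : List (II × WithTop II), Low δ L ∧ L.length ≤ k * N ∧
    r = nrm (d.val ⟨s0, L, u, v⟩)} with hM
  have hMne : ∀ k, (M k).Nonempty := fun k =>
    ⟨_, [], fun e he => absurd he List.not_mem_nil, by simp, rfl⟩
  have hMb : ∀ k, BddAbove (M k) := by
    intro k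
    refine ⟨1, ?_⟩
    rintro _ ⟨L, -, -, rfl⟩
    exact nrm_le_one (d.hval _)
  have hM0 : ∀ k, 0 ≤ sSup (M k) := by
    intro k
    obtain ⟨r, hr⟩ := hMne k
    have hr' := hr
    obtain ⟨L, -, -, rfl⟩ := hr'
    exact (nrm_nonneg (d.hval _)).trans (le_csSup (hMb k) hr)
  have hM1 : ∀ k, sSup (M k) ≤ 1 := by
    intro k
    apply csSup_le (hMne k)
    rintro _ ⟨L, -, -, rfl⟩
    exact nrm_le_one (d.hval _)
  set τ : ℝ := 1 / ((t : ℝ) + 1) with hτ
  have hτpos : 0 < τ := by positivity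
  have hstep : ∃ k < 2 * (t + 1), sSup (M (k + 1)) ≤ sSup (M k) + τ / 2 := by
    by_contra hno
    push Not at hno
    have hind : ∀ k ≤ 2 * (t + 1), (k : ℝ) * (τ / 2) ≤ sSup (M k) := by
      intro k
      induction k with
      | zero => intro _; simpa using hM0 0
      | succ k ih =>
        intro hk
        have h1 := ih (by omega)
        have h2 := hno k (by omega)
        push_cast
        linarith
    have h1 := hind (2 * (t + 1)) le_rfl
    have h2 := hno (2 * (t + 1) - 1) (by omega)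
    have h3 := hind (2 * (t + 1) - 1) (by omega)
    have h4 := hM1 (2 * (t + 1) - 1 + 1)
    have h5 : ((2 * (t + 1) - 1 : ℕ) : ℝ) = 2 * ((t : ℝ) + 1) - 1 := by
      rw [Nat.cast_sub (by omega)]
      push_cast
      ring
    rw [h5] at h3
    have h6 : 2 * ((t : ℝ) + 1) * (τ / 2) = 1 := by
      rw [hτ]
      field_simp
    have : (2 * ((t : ℝ) + 1) - 1) * (τ / 2) = 1 - τ / 2 := by
      rw [sub_mul, h6]; ring
    linarith
  obtain ⟨k, hk, hkM⟩ := hstep
  obtain ⟨_, ⟨Ls, hLow, hLen, rfl⟩, hLs⟩ := exists_lt_of_lt_csSup (hMne k)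
    (show sSup (M k) - τ / 2 < sSup (M k) by linarith)
  refine ⟨u, v, t, Ls, ⟨hu0, hu1⟩, ⟨hv0, hv1⟩, hLow, ?_, ?_, hgap⟩
  · intro L' hL'
    apply Code.mem_KSet _ ⟨hu0, hu1⟩ ⟨hv0, hv1⟩ m huv
    simp only
    have h1 : k * N ≤ (2 * (t + 1) - 1) * N := Nat.mul_le_mul_right _ (by omega)
    have h2 : (2 * (t + 1) - 1) * N + N ≤ (2 * t + 2) * N := by
      have : (2 * (t + 1) - 1) * N + N = ((2 * (t + 1) - 1) + 1) * N := by ring
      rw [this]
      exact Nat.mul_le_mul_right _ (by omega)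
    have h3 : 2 * L'.length ≤ 2 * ((2 * t + 2) * N + 1) := by omega
    refine h3.trans ?_
    have h4 : 2 * ((2 * t + 2) * N + 1) = (4 * (2 * N + 2) * N * E) * m + (4 * N + 2) := by
      rw [ht]; ring
    rw [h4, pow_two]
    have h5 : 4 * N + 2 ≤ (6 * N + 2) * m := by nlinarith
    calc (4 * (2 * N + 2) * N * E) * m + (4 * N + 2)
        ≤ (4 * (2 * N + 2) * N * E) * m + (6 * N + 2) * m := by omega
      _ = (4 * (2 * N + 2) * N * E + 6 * N + 2) * m := by ring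
      _ = m * m := by rw [← hm]
  · intro L' hL' hlen
    have h1 : nrm (d.val ⟨s0, L', u, v⟩) ≤ sSup (M (k + 1)) := by
      apply le_csSup (hMb _)
      exact ⟨L', hL', by rw [Nat.add_mul]; omega, rfl⟩
    linarith

end Pool.Agent.Lib.MP_45c416_gt
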