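import Pool.Agent.Lib.MP_45c416_gt.Scattered

open TopologicalSpace Set

namespace Pool.Agent.Lib.MP_45c416_gt

variable {S : Type*} [TopologicalSpace S]

/-- The indicator function of a clopen set. -/
noncomputable def ind (U : Clopens S) : C(S, ℝ) :=
  ⟨(U : Set S).indicator (fun _ => (1 : ℝ)), U.isClopen.continuous_indicator continuous_const⟩

theorem ind_apply_mem {U : Clopens S} {x : S} (h : x ∈ U) : ind U x = 1 := by
  show (U : Set S).indicator (fun _ => (1 : ℝ)) x = 1
  exact Set.indicator_of_mem (s := (U : Set S)) h _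

theorem ind_apply_notMem {U : Clopens S} {x : S} (h : x ∉ U) : ind U x = 0 := by
  show (U : Set S).indicator (fun _ => (1 : ℝ)) x = 0
  exact Set.indicator_of_notMem (s := (U : Set S)) h _

theorem ind_sup {U V : Clopens S} (h : Disjoint U V) : ind (U ⊔ V) = ind U + ind V := by
  ext x
  rw [ContinuousMap.add_apply]
  by_cases hU : x ∈ U
  · have hV : x ∉ V := by
      intro hV
      have : x ∈ U ⊓ V := ⟨hU, hV⟩
      rw [h.eq_bot] at this
      exact this
    rw [ind_apply_mem hU, ind_apply_notMem hV, ind_apply_mem (show x ∈ U ⊔ V from Or.inl hU)]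
    norm_num
  · by_cases hV : x ∈ V
    · rw [ind_apply_notMem hU, ind_apply_mem hV, ind_apply_mem (show x ∈ U ⊔ V from Or.inr hV)]
      norm_num
    · rw [ind_apply_notMem hU, ind_apply_notMem hV,
        ind_apply_notMem (fun h : x ∈ U ⊔ V => h.elim hU hV)]
      norm_num

variable [CompactSpace S]

theorem norm_ind_sub_le (U : Clopens S) : ‖ind U - ind Uᶜ‖ ≤ 1 := by
  rw [ContinuousMap.norm_le _ zero_le_one]
  intro x
  rw [ContinuousMap.sub_apply, Real.norm_eq_abs]
  by_cases hU : x ∈ U
  · rw [ind_apply_mem hU, ind_apply_notMem (show x ∉ Uᶜ from fun h => h hU)]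
    norm_num
  · rw [ind_apply_notMem hU, ind_apply_mem (show x ∈ Uᶜ from hU)]
    norm_num

theorem isCh_of_mem_M1 {φ : WeakDual ℝ C(S, ℝ)} (hφ : φ ∈ M1 S) :
    IsCh (fun U : Clopens S => φ (ind U)) := by
  constructor
  · intro U V h
    show φ (ind (U ⊔ V)) = φ (ind U) + φ (ind V)
    rw [ind_sup h, map_add]
  · intro U
    show φ (ind U) - φ (ind Uᶜ) ≤ 1
    rw [← map_sub]
    exact (le_abs_self _).trans ((hφ _).trans (norm_ind_sub_le U))

/-- Positive normalised functionals have norm at most one. -/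
theorem PS_subset_M1 : PS S ⊆ M1 S := by
  intro φ hφ f
  have h1 : (0 : C(S, ℝ)) ≤ ‖f‖ • (1 : C(S, ℝ)) - f := by
    intro x
    have := f.norm_coe_le_norm x
    rw [Real.norm_eq_abs] at this
    show (0 : ℝ) ≤ ‖f‖ * 1 - f x
    linarith [le_abs_self (f x)]
  have h2 : (0 : C(S, ℝ)) ≤ ‖f‖ • (1 : C(S, ℝ)) + f := by
    intro x
    have := f.norm_coe_le_norm x
    rw [Real.norm_eq_abs] at this
    show (0 : ℝ) ≤ ‖f‖ * 1 + f x
    linarith [neg_abs_le (f x)]
  have h3 := hφ.1 _ h1
  have h4 := hφ.1 _ h2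
  rw [map_sub, map_smul, hφ.2] at h3
  rw [map_add, map_smul, hφ.2] at h4
  simp only [smul_eq_mul, mul_one] at h3 h4
  rw [abs_le]
  constructor <;> linarith

variable [T2Space S]

/-- Two functionals that agree on clopen sets agree. -/
theorem eq_of_ind_eq [TotallyDisconnectedSpace S] {φ ψ : WeakDual ℝ C(S, ℝ)}
    (h : ∀ U : Clopens S, φ (ind U) = ψ (ind U)) : φ = ψ := by
  classical
  set s : Submonoid C(S, ℝ) :=
    { carrier := Set.range (ind : Clopens S → C(S, ℝ))
      mul_mem' := by
        rintro _ _ ⟨U, rfl⟩ ⟨V, rfl⟩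
        refine ⟨U ⊓ V, ?_⟩
        ext x
        rw [ContinuousMap.mul_apply]
        by_cases hU : x ∈ U
        · by_cases hV : x ∈ V
          · rw [ind_apply_mem hU, ind_apply_mem hV,
              ind_apply_mem (show x ∈ U ⊓ V from ⟨hU, hV⟩)]
            norm_num
          · rw [ind_apply_notMem hV, ind_apply_notMem (fun h : x ∈ U ⊓ V => hV h.2)]
            norm_num
        · rw [ind_apply_notMem hU, ind_apply_notMem (fun h : x ∈ U ⊓ V => hU h.1)]
          norm_num
      one_mem' := by
        refine ⟨⊤, ?_⟩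
        ext x
        rw [ind_apply_mem (show x ∈ (⊤ : Clopens S) from trivial)]
        rfl } with hs
  set A : Subalgebra ℝ C(S, ℝ) := Algebra.adjoin ℝ (s : Set C(S, ℝ)) with hA
  have hsep : A.SeparatesPoints := by
    intro x y hxy
    obtain ⟨U, hU, hxU, hyU⟩ := exists_isClopen_of_totally_separated hxy
    refine ⟨ind ⟨U, hU⟩, ⟨ind ⟨U, hU⟩, Algebra.subset_adjoin ⟨⟨U, hU⟩, rfl⟩, rfl⟩, ?_⟩
    rw [ind_apply_mem (U := ⟨U, hU⟩) hxU, ind_apply_notMem (U := ⟨U, hU⟩) hyU]
    norm_num
  have hdense := ContinuousMap.subalgebra_topologicalClosure_eq_top_of_separatesPoints A hsep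
  have hspan : ∀ f ∈ A, φ f = ψ f := by
    intro f hf
    have : f ∈ Submodule.span ℝ (s : Set C(S, ℝ)) := by
      have h1 : f ∈ Subalgebra.toSubmodule A := hf
      rw [hA, Algebra.adjoin_eq_span, Submonoid.closure_eq] at h1
      exact h1
    clear hf
    induction this using Submodule.span_induction with
    | mem x hx =>
      obtain ⟨U, rfl⟩ := hx
      exact h U
    | zero => simp
    | add x y _ _ hx hy => rw [map_add, map_add, hx, hy]
    | smul c x _ hx => rw [map_smul, map_smul, hx]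
  have hall : ∀ f, φ f = ψ f := by
    intro f
    have hf : f ∈ A.topologicalClosure := by rw [hdense]; trivial
    have hcl : IsClosed {f : C(S, ℝ) | φ f = ψ f} := isClosed_eq φ.continuous ψ.continuous
    have hf' : f ∈ closure (A : Set C(S, ℝ)) := hf
    exact closure_minimal (fun g hg => hspan g hg) hcl hf'
  exact ContinuousLinearMap.ext hall

end Pool.Agent.Lib.MP_45c416_gt
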