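import Mathlib

open Set Cardinal Order

namespace Pool.Agent.Lib.MP_45c416_gt

/-- Small subsets of a regular cardinal are strictly bounded. -/
theorem exists_strict_bound {c : Cardinal.{0}} (hc : c.IsRegular) (s : Set c.ord.ToType)
    (hs : #s < c) : ∃ b, ∀ x ∈ s, x < b := by
  by_contra hno
  push Not at hno
  have hcof : IsCofinal s := by
    intro b
    obtain ⟨x, hx, hbx⟩ := hno b
    exact ⟨x, hx, hbx⟩
  have h1 := Order.cof_le hcof
  rw [Ordinal.cof_toType, hc.cof_ord] at h1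
  exact absurd h1 (not_le.mpr hs)

/-- The index set: the initial ordinal of the successor of the continuum. -/
abbrev II : Type := (Order.succ (𝔠 : Cardinal.{0})).ord.ToType

theorem isRegular_succ_continuum : (Order.succ (𝔠 : Cardinal.{0})).IsRegular :=
  isRegular_succ aleph0_le_continuum

instance : Nonempty II := by
  rw [Ordinal.nonempty_toType_iff]
  intro h
  have h1 : (Order.succ (𝔠 : Cardinal.{0})) = 0 := Cardinal.ord_eq_zero.mp h
  have h2 : (0 : Cardinal.{0}) < Order.succ 𝔠 := lt_of_le_of_lt (zero_le) (Order.lt_succ _)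
  exact h2.ne' h1

theorem II_bound {ι : Type} (hι : #ι ≤ 𝔠) (h : ι → II) : ∃ b, ∀ i, h i < b := by
  obtain ⟨b, hb⟩ := exists_strict_bound isRegular_succ_continuum (Set.range h)
    (lt_of_le_of_lt (mk_range_le.trans hι) (Order.lt_succ _))
  exact ⟨b, fun i => hb _ ⟨i, rfl⟩⟩

theorem II_bound_countable {s : Set II} (hs : s.Countable) : ∃ b, ∀ x ∈ s, x < b := by
  apply exists_strict_bound isRegular_succ_continuum
  have h1 : #s ≤ ℵ₀ := hs.le_aleph0
  exact lt_of_le_of_lt (h1.trans aleph0_le_continuum) (Order.lt_succ _)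

theorem mk_Iio_II (b : II) : #(Set.Iio b) ≤ 𝔠 := by
  have : #(Set.Iio b) < Order.succ 𝔠 := by
    have := mk_Iio_lt (α := II) b (by simp)
    simpa using this
  exact Order.lt_succ_iff.mp this

/-- The first uncountable ordinal. -/
abbrev WW : Type := (Order.succ (ℵ₀ : Cardinal.{0})).ord.ToType

theorem WW_Iio (ν : WW) : (Set.Iio ν).Countable := by
  have h1 : #(Set.Iio ν) < Order.succ ℵ₀ := by
    have := mk_Iio_lt (α := WW) ν (by simp)
    simpa using this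
  exact Cardinal.le_aleph0_iff_set_countable.mp (Order.lt_succ_iff.mp h1)

theorem WW_bound (s : Set WW) (hs : s.Countable) : ∃ b, ∀ x ∈ s, x < b :=
  exists_strict_bound (isRegular_succ le_rfl) s
    (lt_of_le_of_lt hs.le_aleph0 (Order.lt_succ _))

theorem WW_card : #WW ≤ 𝔠 := by
  rw [mk_ord_toType]
  exact Order.succ_le_of_lt aleph0_lt_continuum

/-- One closure step. -/
theorem exists_step {J : Type} [Countable J] (e : (ℕ → II) → II) (R : (ℕ → II) → J → II → Prop) :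
    ∃ f : II → II, ∀ β, β < f β ∧ ∀ p : ℕ → II, (∀ n, p n < β) → e p < f β ∧
      ∀ (θ : J → Prop) (b : II), b < β → (∃ γ, b < γ ∧ ∀ j, (R p j γ ↔ θ j)) →
        ∃ γ, b < γ ∧ γ < f β ∧ ∀ j, (R p j γ ↔ θ j) := by
  classical
  have key : ∀ β : II, ∃ z, β < z ∧ ∀ p : ℕ → II, (∀ n, p n < β) → e p < z ∧
      ∀ (θ : J → Prop) (b : II), b < β → (∃ γ, b < γ ∧ ∀ j, (R p j γ ↔ θ j)) →
        ∃ γ, b < γ ∧ γ < z ∧ ∀ j, (R p j γ ↔ θ j) := by
    intro β
    set ι : Type := (ℕ → Set.Iio β) × (J → Prop) × Set.Iio β with hι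
    have hcard : #ι ≤ 𝔠 := by
      have h1 : #(ℕ → Set.Iio β) ≤ 𝔠 := by
        calc #(ℕ → Set.Iio β) = #(Set.Iio β) ^ ℵ₀ := by simp
          _ ≤ 𝔠 ^ ℵ₀ := power_le_power_right (mk_Iio_II β)
          _ = 𝔠 := continuum_power_aleph0
      have h2 : #(J → Prop) ≤ 𝔠 := by
        calc #(J → Prop) = 2 ^ #J := by simp
          _ ≤ 2 ^ ℵ₀ := power_le_power_left two_ne_zero (mk_le_aleph0)
          _ = 𝔠 := two_power_aleph0
      calc #ι = #(ℕ → Set.Iio β) * (#(J → Prop) * #(Set.Iio β)) := by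
            rw [hι, mk_prod, mk_prod]; simp
        _ ≤ 𝔠 * (𝔠 * 𝔠) := mul_le_mul' h1 (mul_le_mul' h2 (mk_Iio_II β))
        _ = 𝔠 := by rw [continuum_mul_self, continuum_mul_self]
    obtain ⟨z1, hz1⟩ := II_bound hcard
      (fun i : ι => if h : ∃ γ, (i.2.2 : II) < γ ∧ ∀ j, (R (fun n => (i.1 n : II)) j γ ↔ i.2.1 j)
        then h.choose else (i.2.2 : II))
    have hcard2 : #(ℕ → Set.Iio β) ≤ 𝔠 := by
      calc #(ℕ → Set.Iio β) = #(Set.Iio β) ^ ℵ₀ := by simp
        _ ≤ 𝔠 ^ ℵ₀ := power_le_power_right (mk_Iio_II β)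
        _ = 𝔠 := continuum_power_aleph0
    obtain ⟨z2, hz2⟩ := II_bound hcard2 (fun p : ℕ → Set.Iio β => e fun n => (p n : II))
    obtain ⟨z, hz⟩ := II_bound_countable (s := {z1, z2, β}) (Set.toFinite _).countable
    refine ⟨z, hz β (by simp), fun p hp => ⟨?_, ?_⟩⟩
    · exact (hz2 fun n => ⟨p n, hp n⟩).trans (hz z2 (by simp))
    · intro θ b hb hex
      have h := hz1 (⟨fun n => ⟨p n, hp n⟩, θ, ⟨b, hb⟩⟩ : ι)
      simp only at h
      rw [dif_pos hex] at h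
      exact ⟨hex.choose, hex.choose_spec.1, h.trans (hz z1 (by simp)), hex.choose_spec.2⟩
  choose f hf using key
  exact ⟨f, hf⟩

/-- The closure point `δ` of uncountable cofinality. -/
theorem exists_closure {J : Type} [Countable J] (e : (ℕ → II) → II)
    (R : (ℕ → II) → J → II → Prop) :
    ∃ δ : II, (∀ p : ℕ → II, (∀ n, p n < δ) → e p < δ) ∧
      (∀ C : Set II, C.Countable → (∀ x ∈ C, x < δ) → ∃ b < δ, ∀ x ∈ C, x < b) ∧
      (∀ p : ℕ → II, (∀ n, p n < δ) → ∀ b < δ, ∃ γ, b < γ ∧ γ < δ ∧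
        ∀ j, (R p j γ ↔ R p j δ)) := by
  classical
  obtain ⟨f, hf⟩ := exists_step e R
  -- the sequence of length `ω₁`
  have hΩc : ∀ ν : WW, (Set.Iio ν).Countable := WW_Iio
  have hΩb : ∀ s : Set WW, s.Countable → ∃ b, ∀ x ∈ s, x < b := WW_bound
  have hbnd : ∀ s : Set II, ∃ b, s.Countable → ∀ x ∈ s, x < b := by
    intro s
    by_cases hs : s.Countable
    · obtain ⟨b, hb⟩ := II_bound_countable hs
      exact ⟨b, fun _ => hb⟩
    · exact ⟨Classical.arbitrary II, fun h => absurd h hs⟩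
  choose bnd hbnd using hbnd
  obtain ⟨d, hd⟩ : ∃ d : WW → II, ∀ ν ν', ν' < ν → f (d ν') < d ν := by
    set wf : WellFounded ((· < ·) : WW → WW → Prop) := wellFounded_lt
    set d : WW → II := wf.fix (fun ν ih => bnd {x | ∃ (ν' : WW) (h : ν' < ν), x = f (ih ν' h)})
      with hddef
    refine ⟨d, fun ν ν' hν => ?_⟩
    have hfix : d ν = bnd {x | ∃ (ν' : WW) (_ : ν' < ν), x = f (d ν')} := by
      rw [hddef, wf.fix_eq]
    rw [hfix]
    apply hbnd
    · have : {x | ∃ (ν' : WW) (_ : ν' < ν), x = f (d ν')} = (fun ν' => f (d ν')) '' (Set.Iio ν) := by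
        ext x
        constructor
        · rintro ⟨ν', h, rfl⟩
          exact ⟨ν', h, rfl⟩
        · rintro ⟨ν', h, rfl⟩
          exact ⟨ν', h, rfl⟩
      rw [this]
      exact (hΩc ν).image _
    · exact ⟨ν', hν, rfl⟩
  have hΩcard : #WW ≤ 𝔠 := WW_card
  obtain ⟨z0, hz0⟩ := II_bound hΩcard d
  obtain ⟨δ, hδ, hδmin⟩ := WellFounded.has_min (wellFounded_lt (α := II)) {x | ∀ ν, d ν < x}
    ⟨z0, hz0⟩
  have hbelow : ∀ b < δ, ∃ ν, b ≤ d ν := by
    intro b hb
    by_contra hno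
    push Not at hno
    exact hδmin b hno hb
  have hfδ : ∀ ν, f (d ν) < δ := by
    intro ν
    obtain ⟨ν', hν'⟩ := hΩb {ν} (Set.countable_singleton _)
    exact (hd ν' ν (hν' ν rfl)).trans (hδ ν')
  -- countable sets below `δ` are bounded by some `d ν`
  have hcof : ∀ C : Set II, C.Countable → (∀ x ∈ C, x < δ) → ∃ ν, ∀ x ∈ C, x < d ν := by
    intro C hC hCδ
    have hex : ∀ x : C, ∃ ν, (x : II) ≤ d ν := fun x => hbelow x (hCδ x x.2)
    choose g hg using hex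
    have : Countable C := hC.to_subtype
    obtain ⟨ν, hν⟩ := hΩb (Set.range g) (Set.countable_range g)
    refine ⟨ν, fun x hx => ?_⟩
    have h1 := hd ν (g ⟨x, hx⟩) (hν _ ⟨_, rfl⟩)
    exact (hg ⟨x, hx⟩).trans_lt (((hf _).1).trans h1)
  refine ⟨δ, ?_, ?_, ?_⟩
  · intro p hp
    obtain ⟨ν, hν⟩ := hcof (Set.range p) (Set.countable_range p) (by
      rintro _ ⟨n, rfl⟩; exact hp n)
    exact ((hf (d ν)).2 p (fun n => hν _ ⟨n, rfl⟩)).1.trans (hfδ ν)
  · intro C hC hCδ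
    obtain ⟨ν, hν⟩ := hcof C hC hCδ
    exact ⟨d ν, hδ ν, hν⟩
  · intro p hp b hb
    obtain ⟨ν, hν⟩ := hcof (insert b (Set.range p)) ((Set.countable_range p).insert b) (by
      rintro x (rfl | ⟨n, rfl⟩)
      · exact hb
      · exact hp n)
    obtain ⟨γ, h1, h2, h3⟩ := ((hf (d ν)).2 p (fun n => hν _ (Or.inr ⟨n, rfl⟩))).2
      (fun j => R p j δ) b (hν b (Or.inl rfl)) ⟨δ, hb, fun j => Iff.rfl⟩
    exact ⟨γ, h1, h2.trans (hfδ ν), h3⟩

end Pool.Agent.Lib.MP_45c416_gt
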