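import Pool.Agent.Lib.MP_45c416_gt.Defs

open TopologicalSpace Set

namespace Pool.Agent.Lib.MP_45c416_gt

variable {I : Type*} [LinearOrder I]

/-- `Chain F t r x`: there are `x < y₁ < ⋯ < y_r` with all successive jumps of `F` larger
than `t`. -/
def Chain (F : I → ℝ) (t : ℝ) : ℕ → I → Prop
  | 0, _ => True
  | r + 1, x => ∃ y, x < y ∧ t < |F y - F x| ∧ Chain F t r y

/-- The functions `F : I → [0,1]` such that for every `n` there is no chain of `n ^ 2 + 2`
successive jumps larger than `1 / (n + 1)`. -/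
def KSet (I : Type*) [LinearOrder I] : Set (I → ℝ) :=
  {F | (∀ x, 0 ≤ F x ∧ F x ≤ 1) ∧ ∀ (n : ℕ) (x : I), ¬ Chain F (1 / ((n : ℝ) + 1)) (n ^ 2 + 2) x}

theorem isOpen_chain (t : ℝ) (r : ℕ) : ∀ x : I, IsOpen {F : I → ℝ | Chain F t r x} := by
  induction r with
  | zero => intro x; simp [Chain]
  | succ r ih =>
    intro x
    have : {F : I → ℝ | Chain F t (r + 1) x} =
        ⋃ y, ⋃ (_ : x < y), ({F : I → ℝ | t < |F y - F x|} ∩ {F | Chain F t r y}) := by
      ext F
      simp only [Chain, Set.mem_iUnion, Set.mem_inter_iff]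
      constructor
      · rintro ⟨y, h1, h2, h3⟩
        exact ⟨y, h1, h2, h3⟩
      · rintro ⟨y, h1, h2, h3⟩
        exact ⟨y, h1, h2, h3⟩
    rw [this]
    refine isOpen_iUnion fun y => isOpen_iUnion fun _ => IsOpen.inter ?_ (ih y)
    exact isOpen_lt continuous_const
      (((continuous_apply y).sub (continuous_apply x)).abs)

theorem isClosed_KSet : IsClosed (KSet I) := by
  have : KSet I = (⋂ x, {F : I → ℝ | 0 ≤ F x ∧ F x ≤ 1}) ∩
      ⋂ (n : ℕ), ⋂ (x : I), {F : I → ℝ | Chain F (1 / ((n : ℝ) + 1)) (n ^ 2 + 2) x}ᶜ := by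
    ext F
    simp only [KSet, Set.mem_inter_iff, Set.mem_iInter]
    rfl
  rw [this]
  refine IsClosed.inter (isClosed_iInter fun x => ?_)
    (isClosed_iInter fun n => isClosed_iInter fun x => (isOpen_chain _ _ _).isClosed_compl)
  exact IsClosed.inter (isClosed_le continuous_const (continuous_apply x))
    (isClosed_le (continuous_apply x) continuous_const)

theorem isCompact_KSet : IsCompact (KSet I) := by
  have h : IsCompact (Set.pi Set.univ fun _ : I => Set.Icc (0 : ℝ) 1) :=
    isCompact_univ_pi fun _ => isCompact_Icc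
  exact h.of_isClosed_subset isClosed_KSet fun F hF x _ => hF.1 x

instance : CompactSpace (KSet I) := isCompact_iff_compactSpace.mp isCompact_KSet

/-- The supremum metric. -/
noncomputable def dsup (F G : KSet I) : ℝ := ⨆ x, |F.1 x - G.1 x|

theorem bdd_dsup (F G : KSet I) : BddAbove (Set.range fun x => |F.1 x - G.1 x|) := by
  refine ⟨1, ?_⟩
  rintro _ ⟨x, rfl⟩
  have h1 := F.2.1 x
  have h2 := G.2.1 x
  show |F.1 x - G.1 x| ≤ 1
  rw [abs_le]
  constructor <;> linarith [h1.1, h1.2, h2.1, h2.2]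

theorem le_dsup (F G : KSet I) (x : I) : |F.1 x - G.1 x| ≤ dsup F G :=
  le_ciSup (bdd_dsup F G) x

theorem isMetric_dsup [Nonempty I] : IsMetric (dsup : KSet I → KSet I → ℝ) := by
  refine ⟨?_, ?_, ?_, ?_⟩
  · intro F G
    exact Real.iSup_nonneg fun x => abs_nonneg _
  · intro F G
    constructor
    · intro h
      apply Subtype.ext
      funext x
      have := le_dsup F G x
      rw [h] at this
      exact sub_eq_zero.mp (abs_eq_zero.mp (le_antisymm this (abs_nonneg _)))
    · rintro rfl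
      simp [dsup]
  · intro F G
    unfold dsup
    congr 1
    funext x
    exact abs_sub_comm _ _
  · intro F G H
    apply ciSup_le
    intro x
    have h1 := le_dsup F G x
    have h2 := le_dsup G H x
    calc |F.1 x - H.1 x| = |(F.1 x - G.1 x) + (G.1 x - H.1 x)| := by ring_nf
      _ ≤ |F.1 x - G.1 x| + |G.1 x - H.1 x| := abs_add_le _ _
      _ ≤ _ := by linarith

theorem lsc_dsup : LowerSemicontinuous (fun p : KSet I × KSet I => dsup p.1 p.2) := by
  apply lowerSemicontinuous_ciSup
  · intro p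
    exact bdd_dsup p.1 p.2
  · intro x
    apply Continuous.lowerSemicontinuous
    exact (((continuous_apply x).comp (continuous_subtype_val.comp continuous_fst)).sub
      ((continuous_apply x).comp (continuous_subtype_val.comp continuous_snd))).abs

/-- The key step: among functions without long chains from `x`, some relatively open nonempty
part has small oscillation on `[x, ∞)`. -/
theorem fragment_aux [WellFoundedLT I] (t : ℝ) (ht : 0 < t) (r : ℕ) :
    ∀ (x : I) (L : Set (KSet I)), L.Nonempty → (∀ F ∈ L, ¬ Chain F.1 t r x) →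
    ∃ U : Set (KSet I), IsOpen U ∧ (U ∩ L).Nonempty ∧
      ∀ F ∈ U ∩ L, ∀ G ∈ U ∩ L, ∀ y, x ≤ y → |F.1 y - G.1 y| ≤ 4 * t := by
  have hnear : ∀ (x : I) (F₀ : KSet I), IsOpen {F : KSet I | |F.1 x - F₀.1 x| < t} := by
    intro x F₀
    exact isOpen_lt (((continuous_apply x).comp continuous_subtype_val).sub
      continuous_const).abs continuous_const
  have hest : ∀ (F G F₀ : KSet I) (x y : I), |F.1 x - F₀.1 x| < t → |G.1 x - F₀.1 x| < t →
      |F.1 y - F.1 x| ≤ t → |G.1 y - G.1 x| ≤ t → |F.1 y - G.1 y| ≤ 4 * t := by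
    intro F G F₀ x y h1 h2 h3 h4
    rw [abs_lt] at h1 h2
    rw [abs_le] at h3 h4 ⊢
    constructor <;> linarith [h1.1, h1.2, h2.1, h2.2, h3.1, h3.2, h4.1, h4.2]
  induction r with
  | zero =>
    intro x L ⟨F, hF⟩ h
    exact absurd trivial (h F hF)
  | succ r ih =>
    intro x L hL h
    by_cases hcase : ∃ y, x < y ∧ ∃ F ∈ L, t < |F.1 y - F.1 x|
    · -- the least exit point
      set Y : Set I := {y | x < y ∧ ∃ F ∈ L, t < |F.1 y - F.1 x|} with hY
      obtain ⟨y, hyY, hymin⟩ := WellFounded.has_min (wellFounded_lt (α := I)) Y hcase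
      obtain ⟨hxy, F₀, hF₀L, hF₀⟩ := hyY
      set V : Set (KSet I) := {F | t < |F.1 y - F.1 x|} with hV
      have hVo : IsOpen V := isOpen_lt continuous_const
        (((continuous_apply y).comp continuous_subtype_val).sub
          ((continuous_apply x).comp continuous_subtype_val)).abs
      set N : Set (KSet I) := {F | |F.1 x - F₀.1 x| < t} with hN
      have hNo : IsOpen N := hnear x F₀
      obtain ⟨U, hU, hUne, hUd⟩ := ih y (V ∩ N ∩ L) ⟨F₀, ⟨hF₀, by
        show |F₀.1 x - F₀.1 x| < t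
        simpa using ht⟩, hF₀L⟩ (by
        rintro F ⟨⟨hFV, -⟩, hFL⟩ hc
        exact h F hFL ⟨y, hxy, hFV, hc⟩)
      refine ⟨U ∩ (V ∩ N), hU.inter (hVo.inter hNo), ?_, ?_⟩
      · obtain ⟨F, hF1, hF2, hF3⟩ := hUne
        exact ⟨F, ⟨hF1, hF2⟩, hF3⟩
      · rintro F ⟨⟨hFU, hFV, hFN⟩, hFL⟩ G ⟨⟨hGU, hGV, hGN⟩, hGL⟩ z hxz
        rcases le_or_gt y z with hyz | hzy
        · exact hUd F ⟨hFU, ⟨hFV, hFN⟩, hFL⟩ G ⟨hGU, ⟨hGV, hGN⟩, hGL⟩ z hyz
        · have hsmall : ∀ H ∈ L, |H.1 z - H.1 x| ≤ t := by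
            intro H hH
            rcases hxz.eq_or_lt with rfl | hxz'
            · simpa using ht.le
            · by_contra hcon
              push Not at hcon
              exact hymin z ⟨hxz', H, hH, hcon⟩ hzy
          exact hest F G F₀ x z hFN hGN (hsmall F hFL) (hsmall G hGL)
    · push Not at hcase
      obtain ⟨F₀, hF₀⟩ := hL
      refine ⟨{F | |F.1 x - F₀.1 x| < t}, hnear x F₀, ⟨F₀, by
        show |F₀.1 x - F₀.1 x| < t
        simpa using ht, hF₀⟩, ?_⟩
      rintro F ⟨hFN, hFL⟩ G ⟨hGN, hGL⟩ z hxz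
      have hsmall : ∀ H ∈ L, |H.1 z - H.1 x| ≤ t := by
        intro H hH
        rcases hxz.eq_or_lt with rfl | hxz'
        · simpa using ht.le
        · exact hcase z hxz' H hH
      exact hest F G F₀ x z hFN hGN (hsmall F hFL) (hsmall G hGL)

theorem fragments_dsup [WellFoundedLT I] [Nonempty I] :
    Fragments (dsup : KSet I → KSet I → ℝ) := by
  intro L hL ε hε
  obtain ⟨n, hn⟩ := exists_nat_one_div_lt (show 0 < ε / 5 by positivity)
  have ht : (0 : ℝ) < 1 / ((n : ℝ) + 1) := by positivity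
  obtain ⟨b, -, hb⟩ := WellFounded.has_min (wellFounded_lt (α := I)) Set.univ Set.univ_nonempty
  have hb' : ∀ y : I, b ≤ y := fun y => not_lt.mp (hb y trivial)
  obtain ⟨U, hU, hUne, hUd⟩ := fragment_aux _ ht (n ^ 2 + 2) b L hL (fun F _ => F.2.2 n b)
  refine ⟨U, hU, hUne, 4 * (1 / ((n : ℝ) + 1)), by linarith, ?_⟩
  intro F hF G hG
  apply ciSup_le
  intro x
  exact hUd F hF G hG x (hb' x)

theorem isRNCompact_KSet [WellFoundedLT I] [Nonempty I] : IsRNCompact (KSet I) :=
  ⟨inferInstance, inferInstance, dsup, isMetric_dsup, lsc_dsup, fragments_dsup⟩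

/-! ### Two-level functions -/

/-- The code of a two-level function on a linear order: starting point `a`, a list of half-open
intervals, level `u` outside and level `v` inside the intervals. -/
structure Code (I : Type*) where
  a : I
  L : List (I × WithTop I)
  u : ℚ
  v : ℚ

/-- The set coded by a list of half-open intervals. -/
def InL (L : List (I × WithTop I)) (x : I) : Prop := ∃ e ∈ L, e.1 ≤ x ∧ (x : WithTop I) < e.2

open Classical in
/-- The two-level function of a code. -/
noncomputable def Code.fn (c : Code I) (x : I) : ℝ :=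
  if x < c.a then 0 else if InL c.L x then (c.v : ℝ) else (c.u : ℝ)

theorem Code.fn_of_lt {c : Code I} {x : I} (h : x < c.a) : c.fn x = 0 := by
  simp [Code.fn, h]

theorem Code.fn_of_mem {c : Code I} {x : I} (h : c.a ≤ x) (hx : InL c.L x) : c.fn x = c.v := by
  simp [Code.fn, not_lt.mpr h, hx]

theorem Code.fn_of_notMem {c : Code I} {x : I} (h : c.a ≤ x) (hx : ¬ InL c.L x) :
    c.fn x = c.u := by
  simp [Code.fn, not_lt.mpr h, hx]

theorem countP_eq_imp {α : Type*} (p q : α → Bool) (L : List α) (h : ∀ e ∈ L, p e → q e)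
    (heq : L.countP q ≤ L.countP p) : ∀ e ∈ L, q e → p e := by
  induction L with
  | nil => simp
  | cons a L ih =>
    have hmono : L.countP p ≤ L.countP q :=
      List.countP_mono_left fun e he => h e (List.mem_cons_of_mem _ he)
    rw [List.countP_cons, List.countP_cons] at heq
    have ha : p a → q a := h a List.mem_cons_self
    intro e he hq
    rcases List.mem_cons.mp he with rfl | he
    · by_contra hp
      rw [if_pos hq, if_neg hp] at heq
      omega
    · refine ih (fun e he => h e (List.mem_cons_of_mem _ he)) ?_ e he hq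
      by_cases hpa : p a
      · rw [if_pos hpa, if_pos (ha hpa)] at heq
        omega
      · rw [if_neg hpa] at heq
        split_ifs at heq <;> omega

theorem chain_le {F : I → ℝ} {t : ℝ} (ht : 0 ≤ t) (c : I → ℕ) (M : ℕ) (hM : ∀ x, c x ≤ M)
    (hc : ∀ x y, x < y → F x ≠ F y → c x < c y) (r : ℕ) :
    ∀ x, Chain F t r x → r + c x ≤ M := by
  induction r with
  | zero => intro x _; simpa using hM x
  | succ r ih =>
    rintro x ⟨y, hxy, hj, hy⟩
    have h1 := ih y hy
    have h2 := hc x y hxy (by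
      intro h
      rw [h, sub_self, abs_zero] at hj
      exact absurd hj (not_lt.mpr ht))
    omega

open Classical in
/-- The number of end points of the code up to `x`. -/
noncomputable def Code.cnt (c : Code I) (x : I) : ℕ :=
  c.L.countP (fun e => decide (e.1 ≤ x)) + c.L.countP (fun e => decide (e.2 ≤ (x : WithTop I))) +
    if c.a ≤ x then 1 else 0

theorem Code.cnt_le (c : Code I) (x : I) : c.cnt x ≤ 2 * c.L.length + 1 := by
  classical
  unfold Code.cnt
  have h1 := List.countP_le_length (p := fun e : I × WithTop I => decide (e.1 ≤ x)) (l := c.L)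
  have h2 := List.countP_le_length (p := fun e : I × WithTop I => decide (e.2 ≤ (x : WithTop I)))
    (l := c.L)
  split_ifs <;> omega

theorem Code.cnt_lt (c : Code I) {x y : I} (hxy : x < y) (hne : c.fn x ≠ c.fn y) :
    c.cnt x < c.cnt y := by
  classical
  by_contra hcon
  push Not at hcon
  apply hne
  have m1 : c.L.countP (fun e => decide (e.1 ≤ x)) ≤ c.L.countP (fun e => decide (e.1 ≤ y)) :=
    List.countP_mono_left fun e _ h => by
      simp only [decide_eq_true_eq] at *
      exact h.trans hxy.le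
  have hxy' : (x : WithTop I) ≤ y := WithTop.coe_le_coe.mpr hxy.le
  have m2 : c.L.countP (fun e => decide (e.2 ≤ (x : WithTop I))) ≤
      c.L.countP (fun e => decide (e.2 ≤ (y : WithTop I))) :=
    List.countP_mono_left fun e _ h => by
      simp only [decide_eq_true_eq] at *
      exact h.trans hxy'
  have m3 : (if c.a ≤ x then 1 else 0) ≤ (if c.a ≤ y then 1 else 0 : ℕ) := by
    by_cases h : c.a ≤ x
    · rw [if_pos h, if_pos (h.trans hxy.le)]
    · rw [if_neg h]; exact Nat.zero_le _
  unfold Code.cnt at hcon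
  have e1 := countP_eq_imp (fun e : I × WithTop I => decide (e.1 ≤ x))
    (fun e => decide (e.1 ≤ y)) c.L (fun e _ h => by
      simp only [decide_eq_true_eq] at *
      exact h.trans hxy.le) (by omega)
  have e2 := countP_eq_imp (fun e : I × WithTop I => decide (e.2 ≤ (x : WithTop I)))
    (fun e => decide (e.2 ≤ (y : WithTop I))) c.L (fun e _ h => by
      simp only [decide_eq_true_eq] at *
      exact h.trans hxy') (by omega)
  have e3 : c.a ≤ y → c.a ≤ x := by
    intro h
    by_contra h'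
    rw [if_pos h, if_neg h'] at hcon
    omega
  simp only [decide_eq_true_eq] at e1 e2
  have hIn : InL c.L x ↔ InL c.L y := by
    constructor
    · rintro ⟨e, he, h1, h2⟩
      refine ⟨e, he, h1.trans hxy.le, ?_⟩
      by_contra h
      exact absurd (e2 e he (not_lt.mp h)) (not_le.mpr h2)
    · rintro ⟨e, he, h1, h2⟩
      exact ⟨e, he, e1 e he h1, lt_of_le_of_lt hxy' h2⟩
  by_cases hx : c.a ≤ x
  · by_cases hL : InL c.L x
    · rw [Code.fn_of_mem hx hL, Code.fn_of_mem (hx.trans hxy.le) (hIn.mp hL)]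
    · rw [Code.fn_of_notMem hx hL, Code.fn_of_notMem (hx.trans hxy.le) (fun h => hL (hIn.mpr h))]
  · have hy : y < c.a := not_le.mp fun h => hx (e3 h)
    rw [Code.fn_of_lt (not_le.mp hx), Code.fn_of_lt hy]

theorem Code.fn_eq_or (c : Code I) {x : I} (hx : c.a ≤ x) : c.fn x = c.u ∨ c.fn x = c.v := by
  by_cases hL : InL c.L x
  · exact Or.inr (Code.fn_of_mem hx hL)
  · exact Or.inl (Code.fn_of_notMem hx hL)

theorem Code.abs_fn_sub_le (c : Code I) {x y : I} (hx : c.a ≤ x) (hy : c.a ≤ y) :
    |c.fn y - c.fn x| ≤ |(c.u : ℝ) - c.v| := by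
  rcases c.fn_eq_or hx with h | h <;> rcases c.fn_eq_or hy with h' | h' <;> rw [h, h']
  · simp
  · rw [abs_sub_comm]
  · simp

theorem Code.chain_le_one (c : Code I) {t : ℝ} (ht : |(c.u : ℝ) - c.v| ≤ t) (r : ℕ) (x : I)
    (h : Chain c.fn t r x) : r ≤ 1 := by
  have ht0 : 0 ≤ t := (abs_nonneg _).trans ht
  match r, h with
  | 0, _ => omega
  | 1, _ => omega
  | r + 2, ⟨y, hxy, hj, z, hyz, hj', _⟩ =>
    exfalso
    by_cases hx : c.a ≤ x
    · exact absurd ((c.abs_fn_sub_le hx (hx.trans hxy.le)).trans ht) (not_le.mpr hj)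
    · by_cases hy : c.a ≤ y
      · exact absurd ((c.abs_fn_sub_le hy (hy.trans hyz.le)).trans ht) (not_le.mpr hj')
      · rw [Code.fn_of_lt (not_le.mp hx), Code.fn_of_lt (not_le.mp hy), sub_self, abs_zero] at hj
        exact absurd hj (not_lt.mpr ht0)

/-- Two-level functions with close levels and few intervals belong to `K`. -/
theorem Code.mem_KSet (c : Code I) (hu : 0 ≤ c.u ∧ c.u ≤ 1) (hv : 0 ≤ c.v ∧ c.v ≤ 1) (m : ℕ)
    (hm : |(c.u : ℝ) - c.v| ≤ 1 / (m : ℝ)) (hL : 2 * c.L.length ≤ m ^ 2) : c.fn ∈ KSet I := by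
  constructor
  · intro x
    rcases le_or_gt c.a x with hx | hx
    · rcases c.fn_eq_or hx with h | h <;> rw [h]
      · exact ⟨by exact_mod_cast hu.1, by exact_mod_cast hu.2⟩
      · exact ⟨by exact_mod_cast hv.1, by exact_mod_cast hv.2⟩
    · rw [Code.fn_of_lt hx]
      exact ⟨le_rfl, zero_le_one⟩
  · intro n x hch
    have hn : (0 : ℝ) < 1 / ((n : ℝ) + 1) := by positivity
    rcases lt_or_ge n m with hnm | hnm
    · have h1 := c.chain_le_one (t := 1 / ((n : ℝ) + 1)) (hm.trans (by
        have h0 : (n : ℝ) + 1 ≤ m := by exact_mod_cast hnm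
        exact one_div_le_one_div_of_le (by positivity) h0)) _ _ hch
      have : 2 ≤ n ^ 2 + 2 := by omega
      omega
    · have h1 := chain_le hn.le c.cnt (2 * c.L.length + 1) c.cnt_le
        (fun x y hxy hne => c.cnt_lt hxy hne) _ _ hch
      have : m ^ 2 ≤ n ^ 2 := Nat.pow_le_pow_left hnm 2
      omega

/-- One-level functions belong to `K`. -/
theorem Code.mem_KSet' (c : Code I) (hu : 0 ≤ c.u ∧ c.u ≤ 1) (huv : c.u = c.v)
    (hL : c.L = []) : c.fn ∈ KSet I := by
  apply c.mem_KSet hu (huv ▸ hu) 0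
  · rw [huv]; simp
  · rw [hL]; simp

end Pool.Agent.Lib.MP_45c416_gt
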