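import Pool.Agent.Lib.MP_45c416_gt.Ind
import Pool.Agent.Lib.MP_45c416_gt.KSpace
import Pool.Agent.Lib.MP_45c416_gt.Closure

open TopologicalSpace Set

namespace Pool.Agent.Lib.MP_45c416_gt

/-- A continuous function on `K` depends on countably many coordinates. -/
theorem exists_dep {I : Type*} [LinearOrder I] (f : KSet I → ℝ) (hf : Continuous f) :
    ∃ D : Set I, D.Countable ∧ ∀ F G : KSet I, (∀ x ∈ D, F.1 x = G.1 x) → f F = f G := by
  have key : ∀ ε > 0, ∃ D : Finset I, ∀ F G : KSet I, (∀ x ∈ D, F.1 x = G.1 x) →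
      |f F - f G| < ε := by
    intro ε hε
    set C : Set (KSet I × KSet I) := {p | ε ≤ |f p.1 - f p.2|} with hCdef
    have hC : IsCompact C := (isClosed_le continuous_const
      ((hf.comp continuous_fst).sub (hf.comp continuous_snd)).abs).isCompact
    set O : I → Set (KSet I × KSet I) := fun x => {p | p.1.1 x ≠ p.2.1 x} with hOdef
    have hO : ∀ x, IsOpen (O x) := by
      intro x
      have : IsClosed {p : KSet I × KSet I | p.1.1 x = p.2.1 x} := isClosed_eq
        ((continuous_apply x).comp (continuous_subtype_val.comp continuous_fst))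
        ((continuous_apply x).comp (continuous_subtype_val.comp continuous_snd))
      exact this.isOpen_compl
    have hcov : C ⊆ ⋃ x, O x := by
      intro p hp
      have hne : p.1 ≠ p.2 := by
        intro h
        have : ε ≤ |f p.1 - f p.2| := hp
        rw [h, sub_self, abs_zero] at this
        linarith
      have : ∃ x, p.1.1 x ≠ p.2.1 x := by
        by_contra hno
        push Not at hno
        exact hne (Subtype.ext (funext hno))
      obtain ⟨x, hx⟩ := this
      exact Set.mem_iUnion.mpr ⟨x, hx⟩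
    obtain ⟨D, hD⟩ := hC.elim_finite_subcover O hO hcov
    refine ⟨D, fun F G h => ?_⟩
    by_contra hcon
    have h1 : (F, G) ∈ C := not_lt.mp hcon
    obtain ⟨x, hx, hxO⟩ := Set.mem_iUnion₂.mp (hD h1)
    exact hxO (h x hx)
  choose D hD using fun n : ℕ => key (1 / ((n : ℝ) + 1)) (by positivity)
  refine ⟨⋃ n, (D n : Set I), Set.countable_iUnion fun n => (D n).countable_toSet, ?_⟩
  intro F G h
  have h1 : ∀ n : ℕ, |f F - f G| ≤ 1 / ((n : ℝ) + 1) := fun n =>
    (hD n F G fun x hx => h x (Set.mem_iUnion.mpr ⟨n, hx⟩)).le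
  have h0 : |f F - f G| ≤ 0 := ge_of_tendsto' tendsto_one_div_add_atTop_nhds_zero_nat h1
  exact sub_eq_zero.mp (abs_eq_zero.mp (le_antisymm h0 (abs_nonneg _)))

/-- The one-level code `r · 1_[γ, ∞)`. -/
def one {I : Type*} (γ : I) (r : ℚ) : Code I := ⟨γ, [], r, r⟩

/-- The variation norm of a set function. -/
noncomputable def nrm {S : Type*} [TopologicalSpace S] (μ : Clopens S → ℝ) : ℝ :=
  sSup (Set.range fun C : Clopens S => μ C - μ Cᶜ)

theorem le_nrm {S : Type*} [TopologicalSpace S] {μ : Clopens S → ℝ} (hμ : IsCh μ)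
    (C : Clopens S) : μ C - μ Cᶜ ≤ nrm μ := by
  apply le_csSup
  · refine ⟨1, ?_⟩
    rintro _ ⟨C, rfl⟩
    exact hμ.2 C
  · exact ⟨C, rfl⟩

theorem nrm_le_one {S : Type*} [TopologicalSpace S] {μ : Clopens S → ℝ} (hμ : IsCh μ) :
    nrm μ ≤ 1 := by
  apply csSup_le (Set.range_nonempty _)
  rintro _ ⟨C, rfl⟩
  exact hμ.2 C

theorem nrm_nonneg {S : Type*} [TopologicalSpace S] {μ : Clopens S → ℝ} (hμ : IsCh μ) :
    0 ≤ nrm μ := by
  have h1 := le_nrm hμ ⊤
  have h2 := le_nrm hμ ⊥
  rw [compl_top] at h1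
  rw [compl_bot] at h2
  linarith

/-- All the data extracted from a hypothetical injection of `K` into `M₁(S)`. -/
structure Data (S : Type*) [TopologicalSpace S] where
  val : Code II → Clopens S → ℝ
  D : Clopens S → Set II
  W : II → Clopens S
  sgn : II → ℝ
  H : Code II → ℕ → Clopens S
  atm : Code II → ℕ → S
  hval : ∀ c, IsCh (val c)
  hD : ∀ V, (D V).Countable
  hdep : ∀ V c c', c.fn ∈ KSet II → c'.fn ∈ KSet II → (∀ x ∈ D V, c.fn x = c'.fn x) →
    val c V = val c' V
  hsgn : ∀ γ, sgn γ = 1 ∨ sgn γ = -1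
  hW : ∀ γ, 0 < sgn γ * (val (one γ 1) (W γ) - val (one γ 0) (W γ))
  hH : ∀ c (t : ℕ), nrm (val c) - 1 / ((t : ℝ) + 1) < val c (H c t) - val c (H c t)ᶜ
  hatm : ∀ c V, (∀ l, atm c l ∉ V) → val c V = 0

theorem one_mem (γ : II) {r : ℚ} (h0 : 0 ≤ r) (h1 : r ≤ 1) : (one γ r).fn ∈ KSet II :=
  (one γ r).mem_KSet' ⟨h0, h1⟩ rfl rfl

theorem one_fn (γ : II) (r : ℚ) (x : II) (hx : γ ≤ x) : (one γ r).fn x = r := by
  apply Code.fn_of_notMem (c := one γ r) hx
  rintro ⟨e, he, -⟩
  exact absurd he (by simp [one])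

theorem exists_data {S : Type*} [TopologicalSpace S] [CompactSpace S] [T2Space S]
    (hS : IsScattered S) (μ : KSet II → Clopens S → ℝ) (h1 : ∀ F, IsCh (μ F))
    (h2 : ∀ V, Continuous fun F => μ F V) (h3 : ∀ F G, (∀ V, μ F V = μ G V) → F = G) :
    Nonempty (Data S) := by
  classical
  set val : Code II → Clopens S → ℝ := fun c V => if h : c.fn ∈ KSet II then μ ⟨c.fn, h⟩ V else 0
    with hvaldef
  have hval : ∀ c, IsCh (val c) := by
    intro c
    by_cases h : c.fn ∈ KSet II
    · have : val c = μ ⟨c.fn, h⟩ := by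
        funext V
        simp only [hvaldef, dif_pos h]
      rw [this]
      exact h1 _
    · have : val c = fun _ => 0 := by
        funext V
        simp only [hvaldef, dif_neg h]
      rw [this]
      exact ⟨fun _ _ _ => by norm_num, fun _ => by norm_num⟩
  choose D hDc hDd using fun V : Clopens S => exists_dep (fun F => μ F V) (h2 V)
  have hsep : ∀ γ : II, ∃ (V : Clopens S) (s : ℝ), (s = 1 ∨ s = -1) ∧
      0 < s * (val (one γ 1) V - val (one γ 0) V) := by
    intro γ
    have m1 := one_mem γ (r := 1) (by norm_num) le_rfl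
    have m0 := one_mem γ (r := 0) le_rfl (by norm_num)
    have hne : (⟨(one γ 1).fn, m1⟩ : KSet II) ≠ ⟨(one γ 0).fn, m0⟩ := by
      intro h
      have h' := congrFun (congrArg Subtype.val h) γ
      simp only at h'
      rw [one_fn γ 1 γ le_rfl, one_fn γ 0 γ le_rfl] at h'
      norm_num at h'
    have : ∃ V, μ ⟨(one γ 1).fn, m1⟩ V ≠ μ ⟨(one γ 0).fn, m0⟩ V := by
      by_contra hno
      push Not at hno
      exact hne (h3 _ _ hno)
    obtain ⟨V, hV⟩ := this
    have e1 : val (one γ 1) V = μ ⟨(one γ 1).fn, m1⟩ V := by simp only [hvaldef, dif_pos m1]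
    have e0 : val (one γ 0) V = μ ⟨(one γ 0).fn, m0⟩ V := by simp only [hvaldef, dif_pos m0]
    rw [← e1, ← e0] at hV
    rcases lt_or_gt_of_ne hV with h | h
    · exact ⟨V, -1, Or.inr rfl, by linarith⟩
    · exact ⟨V, 1, Or.inl rfl, by linarith⟩
  choose W sgn hsgn hW using hsep
  have hHex : ∀ (c : Code II) (t : ℕ), ∃ C : Clopens S,
      nrm (val c) - 1 / ((t : ℝ) + 1) < val c C - val c Cᶜ := by
    intro c t
    have ht : (0 : ℝ) < 1 / ((t : ℝ) + 1) := by positivity
    obtain ⟨_, ⟨C, rfl⟩, hC⟩ := exists_lt_of_lt_csSup (Set.range_nonempty _)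
      (show nrm (val c) - 1 / ((t : ℝ) + 1) < nrm (val c) by linarith)
    exact ⟨C, hC⟩
  choose H hH using hHex
  have hSne : Nonempty S := by
    by_contra hno
    rw [not_nonempty_iff] at hno
    obtain ⟨γ⟩ := (inferInstance : Nonempty II)
    have hbot : W γ = ⊥ := by
      apply SetLike.coe_injective
      ext x
      exact (hno.false x).elim
    have := hW γ
    rw [hbot, (hval _).bot, (hval _).bot] at this
    norm_num at this
  have hat : ∀ c : Code II, ∃ g : ℕ → S, ∀ V : Clopens S, (∀ l, g l ∉ V) → val c V = 0 := by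
    intro c
    obtain ⟨A, hA, hAV⟩ := exists_atoms hS (hval c)
    rcases A.eq_empty_or_nonempty with rfl | hne
    · obtain ⟨x0⟩ := hSne
      exact ⟨fun _ => x0, fun V _ => hAV V fun a ha => absurd ha (Set.notMem_empty a)⟩
    · obtain ⟨g, rfl⟩ := hA.exists_eq_range hne
      refine ⟨g, fun V hV => hAV V ?_⟩
      rintro _ ⟨l, rfl⟩
      exact hV l
  choose atm hatm using hat
  exact ⟨{ val := val, D := D, W := W, sgn := sgn, H := H, atm := atm
           hval := hval, hD := hDc
           hdep := by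
            intro V c c' hc hc' h
            have e1 : val c V = μ ⟨c.fn, hc⟩ V := by simp only [hvaldef, dif_pos hc]
            have e2 : val c' V = μ ⟨c'.fn, hc'⟩ V := by simp only [hvaldef, dif_pos hc']
            rw [e1, e2]
            exact hDd V ⟨c.fn, hc⟩ ⟨c'.fn, hc'⟩ h
           hsgn := hsgn, hW := hW, hH := hH, hatm := hatm }⟩

end Pool.Agent.Lib.MP_45c416_gt
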