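import Mathlib

/-!
# Radon-Nikodym compacta and measure spaces on scattered compacta: definitions
-/

open TopologicalSpace

namespace Pool.Agent.Lib.MP_45c416_gt

/-- A topological space is scattered: every nonempty subset has a relatively isolated point. -/
def IsScattered (S : Type*) [TopologicalSpace S] : Prop :=
  ∀ A : Set S, A.Nonempty → ∃ x ∈ A, ∃ U : Set S, IsOpen U ∧ U ∩ A = {x}

/-- `d` is a metric on the set `K`. -/
def IsMetric {K : Type*} (d : K → K → ℝ) : Prop :=
  (∀ x y, 0 ≤ d x y) ∧ (∀ x y, d x y = 0 ↔ x = y) ∧ (∀ x y, d x y = d y x) ∧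
    ∀ x y z, d x z ≤ d x y + d y z

/-- `d` fragments `K`: for every nonempty `L ⊆ K` and `ε > 0` some open `U` meets `L` and
`sup {d x y : x, y ∈ U ∩ L} < ε`. -/
def Fragments {K : Type*} [TopologicalSpace K] (d : K → K → ℝ) : Prop :=
  ∀ L : Set K, L.Nonempty → ∀ ε > 0, ∃ U : Set K, IsOpen U ∧ (U ∩ L).Nonempty ∧
    ∃ r < ε, ∀ x ∈ U ∩ L, ∀ y ∈ U ∩ L, d x y ≤ r

/-- Radon-Nikodym compact space: a compact Hausdorff space fragmented by some lower
semicontinuous metric. -/
def IsRNCompact (K : Type*) [TopologicalSpace K] : Prop :=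
  CompactSpace K ∧ T2Space K ∧ ∃ d : K → K → ℝ, IsMetric d ∧
    LowerSemicontinuous (fun p : K × K => d p.1 p.2) ∧ Fragments d

/-- `M₁(S)`: the closed unit ball of the dual of `C(S)`, inside the dual with its weak* topology. -/
def M1 (S : Type*) [TopologicalSpace S] [CompactSpace S] : Set (WeakDual ℝ C(S, ℝ)) :=
  {φ | ∀ f : C(S, ℝ), |φ f| ≤ ‖f‖}

/-- `P(S)`: the Radon probability measures on `S`, i.e. (Riesz) the positive normalised
functionals on `C(S)`, inside the dual of `C(S)` with its weak* topology. -/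
def PS (S : Type*) [TopologicalSpace S] [CompactSpace S] : Set (WeakDual ℝ C(S, ℝ)) :=
  {φ | (∀ f : C(S, ℝ), 0 ≤ f → 0 ≤ φ f) ∧ φ 1 = 1}

end Pool.Agent.Lib.MP_45c416_gt
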