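import Pool.Agent.Lib.MP_45c416_gt.Scattered

open TopologicalSpace Set

namespace Pool.Agent.Lib.MP_45c416_gt

variable {S : Type*} [TopologicalSpace S]

theorem add_inf_sdiff {μ : Clopens S → ℝ}
    (hμ : ∀ U V, Disjoint U V → μ (U ⊔ V) = μ U + μ V) (U V : Clopens S) :
    μ (U ⊓ V) + μ (U \ V) = μ U := by
  rw [← hμ _ _ (disjoint_inf_sdiff), sup_inf_sdiff]

theorem add_sdiff_of_le {μ : Clopens S → ℝ}
    (hμ : ∀ U V, Disjoint U V → μ (U ⊔ V) = μ U + μ V) {U V : Clopens S} (h : U ≤ V) :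
    μ U + μ (V \ U) = μ V := by
  have := add_inf_sdiff hμ V U
  rwa [inf_eq_right.mpr h] at this

/-- Positive version of the pattern lemma. -/
theorem pattern_pos {μ : Clopens S → ℝ}
    (hμ : ∀ U V, Disjoint U V → μ (U ⊔ V) = μ U + μ V) (B : Clopens S) (τ g : ℝ)
    (hpos : ∀ V ≤ B, -τ ≤ μ V) (W : ℕ → Clopens S) (N : ℕ) (ξ : ℕ → Bool)
    (hz : ∀ k < N, ∀ l < N, ξ k = ξ l → μ ((W k ⊓ B) \ W l) = 0)
    (a b : ℕ) (ha : a < N) (hb : b < N) (hab : ξ a ≠ ξ b)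
    (hgap : g / 2 ≤ μ (W a ⊓ B) - μ (W b ⊓ B)) (hg : 2 * ((N : ℝ) + 1) * τ < g) :
    ∃ y : S, ∀ k < N, (y ∈ W k ↔ ξ k = ξ a) := by
  have key : ∀ n ≤ N, ∃ T : Clopens S, T ≤ (W a ⊓ B) \ W b ∧
      (∀ y ∈ T, ∀ k < n, (y ∈ W k ↔ ξ k = ξ a)) ∧ g / 2 - τ - n * τ ≤ μ T := by
    intro n
    induction n with
    | zero =>
      intro _
      refine ⟨(W a ⊓ B) \ W b, le_rfl, fun y _ k hk => absurd hk (by omega), ?_⟩
      have h1 := add_inf_sdiff hμ (W a ⊓ B) (W b)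
      have h2 := add_inf_sdiff hμ (W b ⊓ B) (W a)
      have h3 : W a ⊓ B ⊓ W b = W b ⊓ B ⊓ W a := by
        rw [inf_right_comm, inf_comm (W a) (W b), inf_right_comm]
      have h4 := hpos ((W b ⊓ B) \ W a) (sdiff_le.trans inf_le_right)
      rw [h3] at h1
      push_cast
      linarith
    | succ n ih =>
      intro hn
      obtain ⟨T, hT1, hT2, hT3⟩ := ih (by omega)
      have hTB : T ≤ B := hT1.trans (sdiff_le.trans inf_le_right)
      by_cases hξ : ξ n = ξ a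
      · refine ⟨T ⊓ W n, inf_le_left.trans hT1, ?_, ?_⟩
        · intro y hy k hk
          rcases Nat.lt_succ_iff_lt_or_eq.mp hk with hk | rfl
          · exact hT2 y hy.1 k hk
          · exact ⟨fun _ => hξ, fun _ => hy.2⟩
        · have h1 := add_inf_sdiff hμ T (W n)
          have hle : T \ W n ≤ (W a ⊓ B) \ W n :=
            sdiff_le_sdiff_right (hT1.trans sdiff_le)
          have h2 := add_sdiff_of_le hμ hle
          have h3 := hz a ha n (by omega) hξ.symm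
          have h4 := hpos (((W a ⊓ B) \ W n) \ (T \ W n))
            (sdiff_le.trans (sdiff_le.trans inf_le_right))
          push_cast
          linarith
      · have hξb : ξ n = ξ b := by
          cases h1 : ξ n <;> cases h2 : ξ a <;> cases h3 : ξ b <;> simp_all
        refine ⟨T \ W n, sdiff_le.trans hT1, ?_, ?_⟩
        · intro y hy k hk
          rcases Nat.lt_succ_iff_lt_or_eq.mp hk with hk | rfl
          · exact hT2 y hy.1 k hk
          · exact ⟨fun h => absurd h hy.2, fun h => absurd h hξ⟩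
        · have h1 := add_inf_sdiff hμ T (W n)
          have hle : T ⊓ W n ≤ (W n ⊓ B) \ W b := by
            rw [le_sdiff]
            refine ⟨le_inf inf_le_right (inf_le_left.trans hTB), ?_⟩
            exact Disjoint.mono_left (inf_le_left.trans hT1) disjoint_sdiff_self_left
          have h2 := add_sdiff_of_le hμ hle
          have h3 := hz n (by omega) b hb hξb
          have h4 := hpos (((W n ⊓ B) \ W b) \ (T ⊓ W n))
            (sdiff_le.trans (sdiff_le.trans inf_le_right))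
          push_cast
          linarith
  obtain ⟨T, hT1, hT2, hT3⟩ := key N le_rfl
  have hpos' : 0 < μ T := by
    have : 2 * ((N : ℝ) + 1) * τ = 2 * (τ + N * τ) := by ring
    linarith
  have hne : (T : Set S).Nonempty := by
    by_contra hno
    rw [Set.not_nonempty_iff_eq_empty] at hno
    have hbot : T = ⊥ := by
      apply SetLike.coe_injective
      rw [hno]; rfl
    have h0 := hμ ⊥ ⊥ disjoint_bot_left
    rw [sup_idem] at h0
    rw [hbot] at hpos'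
    linarith
  obtain ⟨y, hy⟩ := hne
  exact ⟨y, fun k hk => hT2 y hy k hk⟩

/-- The pattern lemma. -/
theorem pattern_lemma {μ : Clopens S → ℝ}
    (hμ : ∀ U V, Disjoint U V → μ (U ⊔ V) = μ U + μ V) (C : Clopens S) (τ g s : ℝ)
    (hs : s = 1 ∨ s = -1)
    (hpos : ∀ V ≤ C, -τ ≤ μ V) (hneg : ∀ V ≤ Cᶜ, μ V ≤ τ) (W : ℕ → Clopens S) (N : ℕ)
    (ξ : ℕ → Bool)
    (hz : ∀ k < N, ∀ l < N, ξ k = ξ l → μ ((W k ⊓ C) \ W l) = 0)
    (hz' : ∀ k < N, ∀ l < N, ξ k = ξ l → μ ((W k ⊓ Cᶜ) \ W l) = 0)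
    (a b : ℕ) (ha : a < N) (hb : b < N) (hab : ξ a = true) (hab' : ξ b = false)
    (hgap : g ≤ s * (μ (W a) - μ (W b))) (hg : 2 * ((N : ℝ) + 1) * τ < g) :
    ∃ y : S, (∀ k < N, (y ∈ W k ↔ ξ k = true)) ∨ (∀ k < N, (y ∈ W k ↔ ξ k = false)) := by
  have hsplit : ∀ k, μ (W k) = μ (W k ⊓ C) + μ (W k ⊓ Cᶜ) := by
    intro k
    have h : W k \ C = W k ⊓ Cᶜ := by
      apply SetLike.coe_injective
      rfl
    rw [← add_inf_sdiff hμ (W k) C, h]
  have hne : ξ a ≠ ξ b := by rw [hab, hab']; simp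
  have hne' : ξ b ≠ ξ a := hne.symm
  have conv1 : (∃ y : S, ∀ k < N, (y ∈ W k ↔ ξ k = ξ a)) →
      ∃ y : S, (∀ k < N, (y ∈ W k ↔ ξ k = true)) ∨ (∀ k < N, (y ∈ W k ↔ ξ k = false)) := by
    rintro ⟨y, hy⟩
    refine ⟨y, Or.inl fun k hk => ?_⟩
    rw [hy k hk, hab]
  have conv2 : (∃ y : S, ∀ k < N, (y ∈ W k ↔ ξ k = ξ b)) →
      ∃ y : S, (∀ k < N, (y ∈ W k ↔ ξ k = true)) ∨ (∀ k < N, (y ∈ W k ↔ ξ k = false)) := by
    rintro ⟨y, hy⟩
    refine ⟨y, Or.inr fun k hk => ?_⟩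
    rw [hy k hk, hab']
  have hμn : ∀ U V : Clopens S, Disjoint U V → -μ (U ⊔ V) = -μ U + -μ V := by
    intro U V h
    rw [hμ U V h]; ring
  have hnegpos : ∀ V ≤ Cᶜ, -τ ≤ -μ V := fun V hV => by linarith [hneg V hV]
  have hz'n : ∀ k < N, ∀ l < N, ξ k = ξ l → -μ ((W k ⊓ Cᶜ) \ W l) = 0 := by
    intro k hk l hl h
    rw [hz' k hk l hl h, neg_zero]
  rw [hsplit a, hsplit b] at hgap
  rcases hs with rfl | rfl
  · by_cases h1 : g / 2 ≤ μ (W a ⊓ C) - μ (W b ⊓ C)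
    · exact conv1 (pattern_pos hμ C τ g hpos W N ξ hz a b ha hb hne h1 hg)
    · exact conv2 (pattern_pos (μ := fun V => -μ V) hμn Cᶜ τ g hnegpos W N ξ hz'n b a hb ha hne'
        (by linarith) hg)
  · by_cases h1 : g / 2 ≤ μ (W b ⊓ C) - μ (W a ⊓ C)
    · exact conv2 (pattern_pos hμ C τ g hpos W N ξ hz b a hb ha hne' h1 hg)
    · exact conv1 (pattern_pos (μ := fun V => -μ V) hμn Cᶜ τ g hnegpos W N ξ hz'n a b ha hb hne
        (by linarith) hg)

end Pool.Agent.Lib.MP_45c416_gt
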