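import Pool.Agent.Lib.MP_45c416_gt.Base
import Pool.Agent.Lib.MP_45c416_gt.Pattern

open TopologicalSpace Set

namespace Pool.Agent.Lib.MP_45c416_gt

/-- The list of the blocks `[b i, b (i+1))`, `i < k`, that are switched on by `ξ`. -/
def blk (b : ℕ → II) (ξ : ℕ → Bool) (k : ℕ) : List (II × WithTop II) :=
  ((List.range k).filter (fun i => ξ i)).map (fun i => (b i, (b (i + 1) : WithTop II)))

theorem inL_blk {b : ℕ → II} {ξ : ℕ → Bool} {k : ℕ} {x : II} :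
    InL (blk b ξ k) x ↔ ∃ i < k, ξ i = true ∧ b i ≤ x ∧ x < b (i + 1) := by
  constructor
  · rintro ⟨e, he, h1, h2⟩
    obtain ⟨i, hi, rfl⟩ := List.mem_map.mp he
    rw [List.mem_filter, List.mem_range] at hi
    exact ⟨i, hi.1, hi.2, h1, WithTop.coe_lt_coe.mp h2⟩
  · rintro ⟨i, hi, hξ, h1, h2⟩
    refine ⟨(b i, (b (i + 1) : WithTop II)), List.mem_map.mpr ⟨i, ?_, rfl⟩, h1,
      WithTop.coe_lt_coe.mpr h2⟩
    rw [List.mem_filter, List.mem_range]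
    exact ⟨hi, hξ⟩

theorem inL_append {L L' : List (II × WithTop II)} {x : II} :
    InL (L ++ L') x ↔ InL L x ∨ InL L' x := by
  constructor
  · rintro ⟨e, he, h⟩
    rcases List.mem_append.mp he with he | he
    · exact Or.inl ⟨e, he, h⟩
    · exact Or.inr ⟨e, he, h⟩
  · rintro (⟨e, he, h⟩ | ⟨e, he, h⟩)
    · exact ⟨e, List.mem_append_left _ he, h⟩
    · exact ⟨e, List.mem_append_right _ he, h⟩

theorem inL_tail {y x : II} : InL [(y, (⊤ : WithTop II))] x ↔ y ≤ x := by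
  constructor
  · rintro ⟨e, he, h, -⟩
    rw [List.mem_singleton] at he
    rw [he] at h
    exact h
  · intro h
    exact ⟨_, List.mem_singleton_self _, h, WithTop.coe_lt_top x⟩

theorem length_blk (b : ℕ → II) (ξ : ℕ → Bool) (k : ℕ) : (blk b ξ k).length ≤ k := by
  unfold blk
  rw [List.length_map]
  exact (List.length_filter_le _ _).trans (by rw [List.length_range])

theorem fn_congr {a : II} {L L' : List (II × WithTop II)} {u v : ℚ} {x : II}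
    (h : InL L x ↔ InL L' x) : (⟨a, L, u, v⟩ : Code II).fn x = (⟨a, L', u, v⟩ : Code II).fn x := by
  classical
  rcases lt_or_ge x a with hx | hx
  · rw [Code.fn_of_lt (c := ⟨a, L, u, v⟩) hx, Code.fn_of_lt (c := ⟨a, L', u, v⟩) hx]
  · by_cases hL : InL L x
    · rw [Code.fn_of_mem (c := ⟨a, L, u, v⟩) hx hL,
        Code.fn_of_mem (c := ⟨a, L', u, v⟩) hx (h.mp hL)]
    · rw [Code.fn_of_notMem (c := ⟨a, L, u, v⟩) hx hL,
        Code.fn_of_notMem (c := ⟨a, L', u, v⟩) hx (fun h' => hL (h.mpr h'))]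

/-- The positions occurring in a list. -/
def posSet (L : List (II × WithTop II)) : Set II := {x | ∃ e ∈ L, e.1 = x ∨ e.2 = (x : WithTop II)}

theorem posSet_countable (L : List (II × WithTop II)) : (posSet L).Countable := by
  have : posSet L ⊆ ⋃ e ∈ {e | e ∈ L}, ({e.1} ∪ {x : II | e.2 = (x : WithTop II)}) := by
    rintro x ⟨e, he, h⟩
    simp only [Set.mem_iUnion]
    refine ⟨e, he, ?_⟩
    rcases h with h | h
    · exact Or.inl h.symm
    · exact Or.inr h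
  refine Set.Countable.mono this ?_
  refine Set.Countable.biUnion (List.finite_toSet L).countable fun e _ => ?_
  refine (Set.countable_singleton _).union ?_
  apply Set.Subsingleton.countable
  intro x hx y hy
  have h1 : e.2 = (x : WithTop II) := hx
  have h2 : e.2 = (y : WithTop II) := hy
  rw [h1] at h2
  exact WithTop.coe_injective h2

variable {S : Type*} [TopologicalSpace S]

namespace Data

variable (d : Data S)

/-- Everything fixed before a pattern is evaluated. -/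
structure Ctx (δ s0 : II) (X : ℕ → Set II) (b γ : ℕ → II) (u v : ℚ) (t : ℕ)
    (Ls : List (II × WithTop II)) (N : ℕ) : Prop where
  seq : d.IsSeq δ X b γ
  hs0 : ∀ x ∈ d.D (d.W δ), x < δ → x < s0
  s0X : s0 ∈ X 0
  s0b : s0 < b 0
  pos : ∀ e ∈ Ls, e.1 ∈ X 0 ∧ e.1 < b 0 ∧ ∃ y ∈ X 0, y < b 0 ∧ e.2 = (y : WithTop II)
  base1 : ∀ bit, ∀ x ∈ d.D (d.Hb ⟨s0, Ls, u, v⟩ t bit), x < b 0
  base3 : ∀ bit, ∀ x ∈ d.D (d.W δ ⊓ (d.Hb ⟨s0, Ls, u, v⟩ t bit ⊓ ⊤)), x < δ → x < b 0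
  hu : 0 ≤ u ∧ u ≤ 1
  hv : 0 ≤ v ∧ v ≤ 1
  mem : ∀ L' : List (II × WithTop II), L'.length ≤ Ls.length + N + 1 →
    (⟨s0, L', u, v⟩ : Code II).fn ∈ KSet II
  near : ∀ L' : List (II × WithTop II), Low δ L' → L'.length ≤ Ls.length + N →
        nrm (d.val ⟨s0, L', u, v⟩) ≤ nrm (d.val ⟨s0, Ls, u, v⟩) + 1 / ((t : ℝ) + 1)
  gap : 2 * ((N : ℝ) + 1) * (1 / ((t : ℝ) + 1)) < d.G δ v - d.G δ u

namespace Ctx

variable {d}
variable {δ s0 : II} {X : ℕ → Set II} {b γ : ℕ → II} {u v : ℚ} {t : ℕ}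
    {Ls : List (II × WithTop II)} {N : ℕ}

theorem mono (h : d.Ctx δ s0 X b γ u v t Ls N) : StrictMono b :=
  strictMono_nat_of_lt_succ fun n => (h.seq.bg n).trans (h.seq.gb n)

theorem X_mono (h : d.Ctx δ s0 X b γ u v t Ls N) : Monotone X :=
  monotone_nat_of_le_succ h.seq.sub

theorem notIn_Ls (h : d.Ctx δ s0 X b γ u v t Ls N) {x : II} (hx : b 0 ≤ x) : ¬ InL Ls x := by
  rintro ⟨e, he, -, h2⟩
  obtain ⟨-, -, y, -, hy, hey⟩ := h.pos e he
  rw [hey] at h2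
  exact absurd (WithTop.coe_lt_coe.mp h2) (not_lt.mpr (hy.le.trans hx))

theorem posIn_base (h : d.Ctx δ s0 X b γ u v t Ls N) (k : ℕ) :
    PosIn (X k) ⟨s0, Ls, u, v⟩ := by
  refine ⟨h.X_mono (Nat.zero_le k) h.s0X, fun e he => ?_⟩
  obtain ⟨h1, -, y, hy, -, hey⟩ := h.pos e he
  exact ⟨h.X_mono (Nat.zero_le k) h1, Or.inr ⟨y, h.X_mono (Nat.zero_le k) hy, hey⟩⟩

theorem posIn_blk (h : d.Ctx δ s0 X b γ u v t Ls N) (ξ : ℕ → Bool) (k : ℕ) :
    PosIn (X k) ⟨s0, Ls ++ blk b ξ k, u, v⟩ := by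
  refine ⟨(h.posIn_base k).1, fun e he => ?_⟩
  rcases List.mem_append.mp he with he | he
  · exact (h.posIn_base k).2 e he
  · obtain ⟨i, hi, rfl⟩ := List.mem_map.mp he
    rw [List.mem_filter, List.mem_range] at hi
    exact ⟨h.X_mono hi.1.le (h.seq.bX i), Or.inr ⟨b (i + 1), h.X_mono hi.1 (h.seq.bX (i + 1)), rfl⟩⟩

theorem posIn_tail (h : d.Ctx δ s0 X b γ u v t Ls N) (ξ : ℕ → Bool) (k : ℕ) :
    PosIn (X k) ⟨s0, (Ls ++ blk b ξ k) ++ [(b k, (⊤ : WithTop II))], u, v⟩ := by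
  refine ⟨(h.posIn_base k).1, fun e he => ?_⟩
  rcases List.mem_append.mp he with he | he
  · exact (h.posIn_blk ξ k).2 e he
  · rw [List.mem_singleton] at he
    rw [he]
    exact ⟨h.seq.bX k, Or.inl rfl⟩

/-- The reference code for the bit value at `k`. -/
def ref (s0 : II) (b : ℕ → II) (u v : ℚ) (Ls : List (II × WithTop II)) (ξ : ℕ → Bool) (k : ℕ) :
    Code II :=
  if ξ k then ⟨s0, (Ls ++ blk b ξ k) ++ [(b k, (⊤ : WithTop II))], u, v⟩
  else ⟨s0, Ls ++ blk b ξ k, u, v⟩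

theorem posIn_ref (h : d.Ctx δ s0 X b γ u v t Ls N) (ξ : ℕ → Bool) (k : ℕ) :
    PosIn (X k) (ref s0 b u v Ls ξ k) := by
  unfold ref
  split_ifs
  · exact h.posIn_tail ξ k
  · exact h.posIn_blk ξ k

theorem mem_ref (h : d.Ctx δ s0 X b γ u v t Ls N) (ξ : ℕ → Bool) {k : ℕ} (hk : k < N) :
    (ref s0 b u v Ls ξ k).fn ∈ KSet II := by
  have := length_blk b ξ k
  unfold ref
  split_ifs
  · apply h.mem
    rw [List.length_append, List.length_append, List.length_singleton]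
    omega
  · apply h.mem
    rw [List.length_append]
    omega

theorem mem_full (h : d.Ctx δ s0 X b γ u v t Ls N) (ξ : ℕ → Bool) :
    (⟨s0, Ls ++ blk b ξ N, u, v⟩ : Code II).fn ∈ KSet II := by
  have := length_blk b ξ N
  apply h.mem
  rw [List.length_append]
  omega

/-- Inside block `j` the full pattern code is decided by `ξ j`. -/
theorem inL_full (h : d.Ctx δ s0 X b γ u v t Ls N) (ξ : ℕ → Bool) {j : ℕ} (hj : j < N) {x : II}
    (h1 : b j ≤ x) (h2 : x < b (j + 1)) : InL (Ls ++ blk b ξ N) x ↔ ξ j = true := by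
  rw [inL_append, inL_blk]
  constructor
  · rintro (hL | ⟨i, -, hξ, h3, h4⟩)
    · exact absurd hL (h.notIn_Ls ((h.mono.monotone (Nat.zero_le j)).trans h1))
    · have hij : i = j := by
        have a1 : i < j + 1 := h.mono.lt_iff_lt.mp (h3.trans_lt h2)
        have a2 : j < i + 1 := h.mono.lt_iff_lt.mp (h1.trans_lt h4)
        omega
      rw [← hij]; exact hξ
  · intro hξ
    exact Or.inr ⟨j, hj, hξ, h1, h2⟩

/-- Below `b k` the full pattern and the truncated pattern agree. -/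
theorem inL_below (h : d.Ctx δ s0 X b γ u v t Ls N) (ξ : ℕ → Bool) {k : ℕ} (hk : k ≤ N) {x : II}
    (hx : x < b k) : InL (Ls ++ blk b ξ N) x ↔ InL (Ls ++ blk b ξ k) x := by
  rw [inL_append, inL_append, inL_blk, inL_blk]
  apply or_congr Iff.rfl
  constructor
  · rintro ⟨i, -, hξ, h1, h2⟩
    exact ⟨i, h.mono.lt_iff_lt.mp (h1.trans_lt hx), hξ, h1, h2⟩
  · rintro ⟨i, hi, hξ, h1, h2⟩
    exact ⟨i, by omega, hξ, h1, h2⟩

theorem notIn_trunc (h : d.Ctx δ s0 X b γ u v t Ls N) (ξ : ℕ → Bool) {k : ℕ} {x : II}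
    (hx : b k ≤ x) : ¬ InL (Ls ++ blk b ξ k) x := by
  rw [inL_append, inL_blk]
  rintro (hL | ⟨i, hi, -, -, h4⟩)
  · exact h.notIn_Ls ((h.mono.monotone (Nat.zero_le k)).trans hx) hL
  · have : b (i + 1) ≤ b k := h.mono.monotone hi
    exact absurd h4 (not_lt.mpr (this.trans hx))

/-- The full code agrees with the reference code of `k` below `b (k+1)` and on block `l`. -/
theorem fn_ref (h : d.Ctx δ s0 X b γ u v t Ls N) (ξ : ℕ → Bool) {k l : ℕ} (hk : k < N)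
    (hkl : k ≤ l) (hl : l < N) (hξ : ξ k = ξ l) {x : II}
    (hx : x < b (k + 1) ∨ (b l ≤ x ∧ x < b (l + 1))) :
    (⟨s0, Ls ++ blk b ξ N, u, v⟩ : Code II).fn x = (ref s0 b u v Ls ξ k).fn x := by
  unfold ref
  rcases lt_or_ge x (b k) with hxk | hxk
  · split_ifs
    · apply fn_congr
      rw [h.inL_below ξ hk.le hxk, inL_append (L' := [(b k, (⊤ : WithTop II))]), inL_tail]
      constructor
      · exact Or.inl
      · rintro (h1 | h1)
        · exact h1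
        · exact absurd h1 (not_le.mpr hxk)
    · apply fn_congr
      exact h.inL_below ξ hk.le hxk
  · -- `x` lies in block `k` or in block `l`
    obtain ⟨j, hj, hξj, h1, h2⟩ : ∃ j < N, ξ j = ξ k ∧ b j ≤ x ∧ x < b (j + 1) := by
      rcases hx with hx | hx
      · exact ⟨k, hk, rfl, hxk, hx⟩
      · exact ⟨l, hl, hξ.symm, hx⟩
    have hfull := h.inL_full ξ hj h1 h2
    rw [hξj] at hfull
    split_ifs with hcase
    · apply fn_congr
      rw [hfull, inL_append (L' := [(b k, (⊤ : WithTop II))]), inL_tail]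
      exact ⟨fun _ => Or.inr hxk, fun _ => hcase⟩
    · apply fn_congr
      rw [hfull]
      constructor
      · intro h3; exact absurd h3 hcase
      · intro h3; exact absurd h3 (h.notIn_trunc ξ hxk)

/-- Dependence of `W k ⊓ C`. -/
theorem dep_single (h : d.Ctx δ s0 X b γ u v t Ls N) (k : ℕ) (bit : Bool) :
    ∀ x ∈ d.D (d.W (γ k) ⊓ d.Hb ⟨s0, Ls, u, v⟩ t bit), x < b 0 ∨ (γ k ≤ x ∧ x < b (k + 1)) := by
  intro x hx
  have hx' : x ∈ d.D (d.W (γ k) ⊓ (d.Hb ⟨s0, Ls, u, v⟩ t bit ⊓ ⊤)) := by rwa [inf_top_eq]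
  rcases lt_or_ge x (γ k) with h1 | h1
  · left
    exact (h.seq.good k).dep _ (h.posIn_base k) t bit ⊤ (Or.inl rfl) (b 0)
      (h.X_mono (Nat.zero_le k) (h.seq.bX 0)) (h.base3 bit) x hx' h1
  · right
    refine ⟨h1, ?_⟩
    exact (h.seq.bnd k).b1 _ ((h.posIn_base k).mono (Set.subset_insert _ _)) t bit ⊤ (Or.inl rfl)
      (d.W (γ k)) (Or.inr ⟨γ k, Set.mem_insert _ _, rfl⟩) x hx'

/-- Dependence of `W l ⊓ (C ⊓ W k)`. -/
theorem dep_double (h : d.Ctx δ s0 X b γ u v t Ls N) {k l : ℕ} (hkl : k < l) (bit : Bool) :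
    ∀ x ∈ d.D (d.W (γ l) ⊓ (d.Hb ⟨s0, Ls, u, v⟩ t bit ⊓ d.W (γ k))),
      x < b (k + 1) ∨ (γ l ≤ x ∧ x < b (l + 1)) := by
  intro x hx
  have hγ : γ k ∈ X l := h.X_mono hkl (h.seq.gX k)
  rcases lt_or_ge x (γ l) with h1 | h1
  · left
    refine (h.seq.good l).dep _ (h.posIn_base l) t bit (d.W (γ k)) (Or.inr ⟨γ k, hγ, rfl⟩)
      (b (k + 1)) (h.X_mono hkl (h.seq.bX (k + 1))) ?_ x hx h1
    exact (h.seq.bnd k).b3 _ ((h.posIn_base k).mono (Set.subset_insert _ _)) t bit (d.W (γ k))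
      (Or.inr ⟨γ k, Set.mem_insert _ _, rfl⟩)
  · right
    refine ⟨h1, ?_⟩
    exact (h.seq.bnd l).b1 _ ((h.posIn_base l).mono (Set.subset_insert _ _)) t bit (d.W (γ k))
      (Or.inr ⟨γ k, Set.mem_insert_of_mem _ hγ, rfl⟩)
      (d.W (γ l)) (Or.inr ⟨γ l, Set.mem_insert _ _, rfl⟩) x hx

theorem zero_of_lt (h : d.Ctx δ s0 X b γ u v t Ls N) (ξ : ℕ → Bool) {k l : ℕ}
    (hkl : k < l) (hl : l < N) (hξ : ξ k = ξ l) (bit : Bool) :
    d.val ⟨s0, Ls ++ blk b ξ N, u, v⟩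
      ((d.W (γ k) ⊓ d.Hb ⟨s0, Ls, u, v⟩ t bit) \ d.W (γ l)) = 0 ∧
    d.val ⟨s0, Ls ++ blk b ξ N, u, v⟩
      ((d.W (γ l) ⊓ d.Hb ⟨s0, Ls, u, v⟩ t bit) \ d.W (γ k)) = 0 := by
  have hk : k < N := hkl.trans hl
  set c : Code II := ⟨s0, Ls ++ blk b ξ N, u, v⟩ with hc
  set r : Code II := ref s0 b u v Ls ξ k with hr
  set C := d.Hb ⟨s0, Ls, u, v⟩ t bit with hC
  have hb0 : b 0 ≤ b (k + 1) := h.mono.monotone (Nat.zero_le _)
  have e1 : d.val c (d.W (γ k) ⊓ C) = d.val r (d.W (γ k) ⊓ C) := by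
    apply d.hdep _ _ _ (h.mem_full ξ) (h.mem_ref ξ hk)
    intro x hx
    apply h.fn_ref ξ hk hkl.le hl hξ
    left
    rcases h.dep_single k bit x hx with h1 | h1
    · exact h1.trans_le hb0
    · exact h1.2
  have e2 : d.val c (d.W (γ l) ⊓ C) = d.val r (d.W (γ l) ⊓ C) := by
    apply d.hdep _ _ _ (h.mem_full ξ) (h.mem_ref ξ hk)
    intro x hx
    apply h.fn_ref ξ hk hkl.le hl hξ
    rcases h.dep_single l bit x hx with h1 | h1
    · exact Or.inl (h1.trans_le hb0)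
    · exact Or.inr ⟨(h.seq.bg l).le.trans h1.1, h1.2⟩
  have e3 : d.val c (d.W (γ l) ⊓ (C ⊓ d.W (γ k))) = d.val r (d.W (γ l) ⊓ (C ⊓ d.W (γ k))) := by
    apply d.hdep _ _ _ (h.mem_full ξ) (h.mem_ref ξ hk)
    intro x hx
    apply h.fn_ref ξ hk hkl.le hl hξ
    rcases h.dep_double hkl bit x hx with h1 | h1
    · exact Or.inl h1
    · exact Or.inr ⟨(h.seq.bg l).le.trans h1.1, h1.2⟩
  have hatr : ∀ i, (d.atm r i ∈ d.W (γ k) ↔ d.atm r i ∈ d.W (γ l)) := by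
    intro i
    rw [(h.seq.good k).atoms r (h.posIn_ref ξ k) i,
      (h.seq.good l).atoms r ((h.posIn_ref ξ k).mono (h.X_mono hkl.le)) i]
  have z1 : d.val r ((d.W (γ k) ⊓ C) \ d.W (γ l)) = 0 := by
    apply d.hatm
    rintro i ⟨⟨h1, -⟩, h2⟩
    exact h2 ((hatr i).mp h1)
  have z2 : d.val r ((d.W (γ l) ⊓ C) \ d.W (γ k)) = 0 := by
    apply d.hatm
    rintro i ⟨⟨h1, -⟩, h2⟩
    exact h2 ((hatr i).mpr h1)
  have s1 : d.W (γ k) ⊓ C ⊓ d.W (γ l) = d.W (γ l) ⊓ (C ⊓ d.W (γ k)) := by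
    rw [inf_comm (d.W (γ k) ⊓ C), inf_comm (d.W (γ k)) C]
  have s2 : d.W (γ l) ⊓ C ⊓ d.W (γ k) = d.W (γ l) ⊓ (C ⊓ d.W (γ k)) := inf_assoc _ _ _
  have c1 := (d.hval c).inf_add_sdiff (d.W (γ k) ⊓ C) (d.W (γ l))
  have c2 := (d.hval c).inf_add_sdiff (d.W (γ l) ⊓ C) (d.W (γ k))
  have r1 := (d.hval r).inf_add_sdiff (d.W (γ k) ⊓ C) (d.W (γ l))
  have r2 := (d.hval r).inf_add_sdiff (d.W (γ l) ⊓ C) (d.W (γ k))
  rw [s1] at c1 r1
  rw [s2] at c2 r2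
  constructor <;> linarith

theorem zero_all (h : d.Ctx δ s0 X b γ u v t Ls N) (ξ : ℕ → Bool) (bit : Bool) :
    ∀ k < N, ∀ l < N, ξ k = ξ l → d.val ⟨s0, Ls ++ blk b ξ N, u, v⟩
      ((d.W (γ k) ⊓ d.Hb ⟨s0, Ls, u, v⟩ t bit) \ d.W (γ l)) = 0 := by
  intro k hk l hl hξ
  rcases lt_trichotomy k l with hkl | rfl | hkl
  · exact (h.zero_of_lt ξ hkl hl hξ bit).1
  · have : (d.W (γ k) ⊓ d.Hb ⟨s0, Ls, u, v⟩ t bit) \ d.W (γ k) = ⊥ := by
      rw [sdiff_eq_bot_iff]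
      exact inf_le_left
    rw [this, (d.hval _).bot]
  · exact (h.zero_of_lt ξ hkl hk hξ.symm bit).2

theorem val_W (h : d.Ctx δ s0 X b γ u v t Ls N) (ξ : ℕ → Bool) {k : ℕ} (hk : k < N) :
    d.sgn δ * d.val ⟨s0, Ls ++ blk b ξ N, u, v⟩ (d.W (γ k)) = d.G δ (if ξ k then v else u) := by
  rw [← (h.seq.good k).level, Data.G, (h.seq.good k).sign]
  congr 1
  have hb0k : b 0 ≤ b k := h.mono.monotone (Nat.zero_le k)
  have hs0γ : s0 < γ k := h.s0b.trans_le (hb0k.trans (h.seq.bg k).le)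
  apply d.hdep _ _ _ (h.mem_full ξ)
  · split_ifs
    · exact one_mem _ h.hv.1 h.hv.2
    · exact one_mem _ h.hu.1 h.hu.2
  · intro x hx
    rcases lt_or_ge x (γ k) with h1 | h1
    · have hxs : x < s0 := (h.seq.good k).dep' s0 (h.X_mono (Nat.zero_le k) h.s0X) h.hs0 x hx h1
      rw [Code.fn_of_lt (c := ⟨s0, _, u, v⟩) hxs]
      split_ifs
      · rw [Code.fn_of_lt (c := one (γ k) v) h1]
      · rw [Code.fn_of_lt (c := one (γ k) u) h1]
    · have h2 : x < b (k + 1) := (h.seq.bnd k).b2 (γ k) (Set.mem_insert _ _) x hx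
      have h3 : b k ≤ x := (h.seq.bg k).le.trans h1
      have hfull := h.inL_full ξ hk h3 h2
      have hs0x : s0 ≤ x := hs0γ.le.trans h1
      split_ifs with hξ
      · rw [Code.fn_of_mem (c := ⟨s0, _, u, v⟩) hs0x (hfull.mpr hξ), one_fn _ _ _ h1]
      · rw [Code.fn_of_notMem (c := ⟨s0, _, u, v⟩) hs0x (fun hh => hξ (hfull.mp hh)),
          one_fn _ _ _ h1]

theorem low_full (h : d.Ctx δ s0 X b γ u v t Ls N) (ξ : ℕ → Bool) :
    Low δ (Ls ++ blk b ξ N) := by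
  intro e he
  rcases List.mem_append.mp he with he | he
  · obtain ⟨h1, -, y, hy, -, hey⟩ := h.pos e he
    exact ⟨h.seq.Xδ 0 _ h1, y, h.seq.Xδ 0 _ hy, hey⟩
  · obtain ⟨i, -, rfl⟩ := List.mem_map.mp he
    exact ⟨h.seq.Xδ i _ (h.seq.bX i), b (i + 1), h.seq.Xδ (i + 1) _ (h.seq.bX (i + 1)), rfl⟩

theorem val_Hb (h : d.Ctx δ s0 X b γ u v t Ls N) (ξ : ℕ → Bool) (bit : Bool) :
    d.val ⟨s0, Ls ++ blk b ξ N, u, v⟩ (d.Hb ⟨s0, Ls, u, v⟩ t bit) =
      d.val ⟨s0, Ls, u, v⟩ (d.Hb ⟨s0, Ls, u, v⟩ t bit) := by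
  apply d.hdep _ _ _ (h.mem_full ξ)
  · apply h.mem
    omega
  · intro x hx
    have hxb := h.base1 bit x hx
    apply fn_congr
    rw [inL_append, inL_blk]
    constructor
    · rintro (h1 | ⟨i, -, -, h3, -⟩)
      · exact h1
      · exact absurd (h3.trans_lt hxb) (not_lt.mpr (h.mono.monotone (Nat.zero_le i)))
    · exact Or.inl

theorem near_pos (h : d.Ctx δ s0 X b γ u v t Ls N) (ξ : ℕ → Bool) :
    (∀ V ≤ d.H ⟨s0, Ls, u, v⟩ t, -(1 / ((t : ℝ) + 1)) ≤ d.val ⟨s0, Ls ++ blk b ξ N, u, v⟩ V) ∧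
    (∀ V ≤ (d.H ⟨s0, Ls, u, v⟩ t)ᶜ, d.val ⟨s0, Ls ++ blk b ξ N, u, v⟩ V ≤ 1 / ((t : ℝ) + 1)) := by
  set c : Code II := ⟨s0, Ls ++ blk b ξ N, u, v⟩ with hc
  set C := d.H ⟨s0, Ls, u, v⟩ t with hC
  have hch := d.hval c
  have h1 : nrm (d.val c) ≤ nrm (d.val ⟨s0, Ls, u, v⟩) + 1 / ((t : ℝ) + 1) := by
    apply h.near _ (h.low_full ξ)
    have := length_blk b ξ N
    rw [List.length_append]
    omega
  have h2 := d.hH ⟨s0, Ls, u, v⟩ t
  rw [← hC] at h2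
  have h3 : d.val c C = d.val ⟨s0, Ls, u, v⟩ C := h.val_Hb ξ true
  have h4 : d.val c Cᶜ = d.val ⟨s0, Ls, u, v⟩ Cᶜ := h.val_Hb ξ false
  constructor
  · intro V hV
    have h5 := le_nrm hch (C \ V)
    have h6 : (C \ V)ᶜ = Cᶜ ⊔ V := by
      ext x
      show ¬ (x ∈ C ∧ ¬ x ∈ V) ↔ (¬ x ∈ C) ∨ x ∈ V
      tauto
    have h7 : Disjoint Cᶜ V := disjoint_compl_left.mono_right hV
    rw [h6, hch.1 _ _ h7] at h5
    have h8 := hch.inf_add_sdiff C V
    rw [inf_eq_right.mpr hV] at h8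
    linarith
  · intro V hV
    have h7 : Disjoint C V := disjoint_compl_right.mono_right hV
    have h5 := le_nrm hch (C ⊔ V)
    have h6 : (C ⊔ V)ᶜ = Cᶜ \ V := by
      ext x
      show ¬ (x ∈ C ∨ x ∈ V) ↔ (¬ x ∈ C) ∧ ¬ x ∈ V
      tauto
    rw [h6, hch.1 _ _ h7] at h5
    have h8 := hch.inf_add_sdiff Cᶜ V
    rw [inf_eq_right.mpr hV] at h8
    linarith

theorem pattern (h : d.Ctx δ s0 X b γ u v t Ls N) (ξ : ℕ → Bool)
    (h1 : ∃ i < N, ξ i = true) (h2 : ∃ i < N, ξ i = false) :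
    ∃ y : S, (∀ k < N, (y ∈ d.W (γ k) ↔ ξ k = true)) ∨
      (∀ k < N, (y ∈ d.W (γ k) ↔ ξ k = false)) := by
  obtain ⟨a, ha, hξa⟩ := h1
  obtain ⟨a', ha', hξa'⟩ := h2
  have hz := h.zero_all ξ true
  have hz' := h.zero_all ξ false
  refine pattern_lemma (μ := d.val ⟨s0, Ls ++ blk b ξ N, u, v⟩) (d.hval _).1
    (d.H ⟨s0, Ls, u, v⟩ t) (1 / ((t : ℝ) + 1)) (d.G δ v - d.G δ u) (d.sgn δ) (d.hsgn δ)
    (h.near_pos ξ).1 (h.near_pos ξ).2 (fun k => d.W (γ k)) N ξ hz hz' a a' ha ha' hξa hξa' ?_ h.gap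
  have e1 := h.val_W ξ ha
  have e2 := h.val_W ξ ha'
  rw [hξa, if_pos rfl] at e1
  rw [hξa', if_neg (by simp)] at e2
  rw [mul_sub, e1, e2]

end Ctx

/-- A space carrying such data is not scattered. -/
theorem not_scattered (d : Data S) [CompactSpace S] [T2Space S] : ¬ IsScattered S := by
  obtain ⟨δ, hcof, hclo⟩ := d.exists_delta
  have hδ : d.IsDelta δ := ⟨hcof, hclo⟩
  obtain ⟨s0, hs0δ, hs0⟩ := hcof {x | x ∈ d.D (d.W δ) ∧ x < δ}
    ((d.hD _).mono fun x hx => hx.1) (fun x hx => hx.2)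
  choose u v t Ls hu hv hLow hmem hnear hgap using fun N => d.exists_base δ s0 N
  set Xi : Set II := insert s0 (⋃ N, posSet (Ls N)) with hXi
  have hXic : Xi.Countable := (Set.countable_iUnion fun N => posSet_countable _).insert _
  have hXiδ : ∀ x ∈ Xi, x < δ := by
    rintro x (rfl | hx)
    · exact hs0δ
    · obtain ⟨N, e, he, h⟩ := Set.mem_iUnion.mp hx
      obtain ⟨h1, q, hq, hq2⟩ := hLow N e he
      rcases h with rfl | h
      · exact h1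
      · rw [hq2] at h
        rw [← WithTop.coe_injective h]
        exact hq
  obtain ⟨s, hsδ, hs⟩ := d.exists_boundsOver hδ hXic ⟨s0, Or.inl rfl⟩ hXiδ
  obtain ⟨X, b, γ, hX0, hb0, hseq⟩ := d.exists_seq hδ (hXic.insert s)
    (by
      rintro x (rfl | hx)
      · exact hsδ
      · exact hXiδ x hx) (Set.mem_insert s Xi)
  have hpos : ∀ N, PosIn Xi ⟨s0, Ls N, u N, v N⟩ := by
    intro N
    refine ⟨Or.inl rfl, fun e he => ?_⟩
    obtain ⟨h1, q, hq, hq2⟩ := hLow N e he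
    refine ⟨Or.inr (Set.mem_iUnion.mpr ⟨N, e, he, Or.inl rfl⟩), Or.inr ⟨q, ?_, hq2⟩⟩
    exact Or.inr (Set.mem_iUnion.mpr ⟨N, e, he, Or.inr hq2⟩)
  have hctx : ∀ N, d.Ctx δ s0 X b γ (u N) (v N) (t N) (Ls N) N := by
    intro N
    refine ⟨hseq, ?_, ?_, ?_, ?_, ?_, ?_, hu N, hv N, hmem N, hnear N, hgap N⟩
    · intro x hx hxδ
      exact hs0 x ⟨hx, hxδ⟩
    · rw [hX0]
      exact Or.inr (Or.inl rfl)
    · rw [hb0]
      exact hs.b4 s0 (Or.inl rfl)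
    · intro e he
      obtain ⟨h1, q, hq, hq2⟩ := hLow N e he
      have m1 : e.1 ∈ Xi := Or.inr (Set.mem_iUnion.mpr ⟨N, e, he, Or.inl rfl⟩)
      have m2 : q ∈ Xi := Or.inr (Set.mem_iUnion.mpr ⟨N, e, he, Or.inr hq2⟩)
      rw [hX0, hb0]
      exact ⟨Or.inr m1, hs.b4 _ m1, q, Or.inr m2, hs.b4 _ m2, hq2⟩
    · intro bit x hx
      rw [hb0]
      apply hs.b1 _ (hpos N) (t N) bit ⊤ (Or.inl rfl) ⊤ (Or.inl rfl)
      rwa [top_inf_eq, inf_top_eq]
    · intro bit x hx hxδ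
      rw [hb0]
      exact hs.b3 _ (hpos N) (t N) bit ⊤ (Or.inl rfl) x hx hxδ
  exact not_scattered_of_patterns (fun k => d.W (γ k)) fun N ξ h1 h2 => (hctx N).pattern ξ h1 h2

end Data

/-- The main theorem: no continuous injection of `K` into `M₁(S)` for scattered compact `S`. -/
theorem no_injection {S : Type*} [TopologicalSpace S] [CompactSpace S] [T2Space S]
    (hS : IsScattered S) (e : KSet II → WeakDual ℝ C(S, ℝ)) (hc : Continuous e)
    (hinj : Function.Injective e) (hM : ∀ F, e F ∈ M1 S) : False := by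
  have := hS.totallyDisconnected
  obtain ⟨d⟩ := exists_data hS (fun F V => e F (ind V)) (fun F => isCh_of_mem_M1 (hM F))
    (fun V => (WeakDual.eval_continuous (ind V)).comp hc)
    (fun F G h => hinj (eq_of_ind_eq h))
  exact d.not_scattered hS

end Pool.Agent.Lib.MP_45c416_gt
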