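import Pool.Agent.Lib.MP_45c416_gt.Data

open TopologicalSpace Set

namespace Pool.Agent.Lib.MP_45c416_gt

/-- Transport of a code along a map of positions. -/
def Code.map (p : ℕ → II) (c : Code ℕ) : Code II :=
  ⟨p c.a, c.L.map (fun e => (p e.1, WithTop.map p e.2)), c.u, c.v⟩

instance : Countable (WithTop ℕ) := inferInstanceAs (Countable (Option ℕ))

instance : Countable (Code ℕ) := by
  have hinj : Function.Injective
      (fun c : Code ℕ => ((c.a, c.L, c.u, c.v) : ℕ × List (ℕ × WithTop ℕ) × ℚ × ℚ)) := by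
    rintro ⟨a, L, u, v⟩ ⟨a', L', u', v'⟩ h
    simp only [Prod.mk.injEq] at h
    obtain ⟨rfl, rfl, rfl, rfl⟩ := h
    rfl
  exact hinj.countable

/-- All positions of the code lie in `X`. -/
def PosIn (X : Set II) (c : Code II) : Prop :=
  c.a ∈ X ∧ ∀ e ∈ c.L, e.1 ∈ X ∧ (e.2 = ⊤ ∨ ∃ y ∈ X, e.2 = (y : WithTop II))

theorem PosIn.mono {X Y : Set II} (h : X ⊆ Y) {c : Code II} (hc : PosIn X c) : PosIn Y c :=
  ⟨h hc.1, fun e he => ⟨h (hc.2 e he).1, (hc.2 e he).2.imp id fun ⟨y, hy, hye⟩ => ⟨y, h hy, hye⟩⟩⟩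

theorem exists_map_eq {p : ℕ → II} {c : Code II} (hc : PosIn (Set.range p) c) :
    ∃ c' : Code ℕ, c'.map p = c := by
  obtain ⟨a, L, u, v⟩ := c
  obtain ⟨⟨n, hn⟩, hL⟩ := hc
  simp only at hn hL
  have : ∃ L' : List (ℕ × WithTop ℕ), L'.map (fun e => (p e.1, WithTop.map p e.2)) = L := by
    induction L with
    | nil => exact ⟨[], rfl⟩
    | cons e L ih =>
      obtain ⟨L', hL'⟩ := ih fun e he => hL e (List.mem_cons_of_mem _ he)
      obtain ⟨⟨k, hk⟩, h2⟩ := hL e List.mem_cons_self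
      obtain ⟨e1, e2⟩ := e
      simp only at hk h2
      rcases h2 with rfl | ⟨y, ⟨j, rfl⟩, rfl⟩
      · refine ⟨(k, ⊤) :: L', ?_⟩
        rw [List.map_cons, hL', hk]
        rfl
      · refine ⟨(k, (j : WithTop ℕ)) :: L', ?_⟩
        rw [List.map_cons, hL', hk]
        rfl
  obtain ⟨L', hL'⟩ := this
  refine ⟨⟨n, L', u, v⟩, ?_⟩
  unfold Code.map
  simp only [hn, hL']

theorem countable_codes {X : Set II} (hX : X.Countable) (hne : X.Nonempty) :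
    {c : Code II | PosIn X c}.Countable := by
  obtain ⟨p, rfl⟩ := hX.exists_eq_range hne
  apply (Set.countable_range (Code.map p)).mono
  intro c hc
  obtain ⟨c', rfl⟩ := exists_map_eq hc
  exact ⟨c', rfl⟩

variable {S : Type*} [TopologicalSpace S]

namespace Data

variable (d : Data S)

/-- The value profile of the detector at `γ`. -/
noncomputable def G (γ : II) (r : ℚ) : ℝ := d.sgn γ * d.val (one γ r) (d.W γ)

/-- The Hahn set of a code or its complement. -/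
def Hb (c : Code II) (t : ℕ) (bit : Bool) : Clopens S :=
  if bit then d.H c t else (d.H c t)ᶜ

/-- The clopen sets `⊤` and `W x` for `x ∈ X`. -/
def QSet (X : Set II) : Set (Clopens S) := {Q | Q = ⊤ ∨ ∃ x ∈ X, Q = d.W x}

/-- `γ` resembles `δ` over the parameter set `X`. -/
structure Good (δ : II) (X : Set II) (γ : II) : Prop where
  atoms : ∀ c, PosIn X c → ∀ l, (d.atm c l ∈ d.W γ ↔ d.atm c l ∈ d.W δ)
  sign : d.sgn γ = d.sgn δ
  level : ∀ r : ℚ, d.G γ r = d.G δ r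
  dep : ∀ c, PosIn X c → ∀ t bit, ∀ Q ∈ d.QSet X, ∀ ρ ∈ X,
    (∀ x ∈ d.D (d.W δ ⊓ (d.Hb c t bit ⊓ Q)), x < δ → x < ρ) →
    ∀ x ∈ d.D (d.W γ ⊓ (d.Hb c t bit ⊓ Q)), x < γ → x < ρ
  dep' : ∀ ρ ∈ X, (∀ x ∈ d.D (d.W δ), x < δ → x < ρ) → ∀ x ∈ d.D (d.W γ), x < γ → x < ρ

/-- Auxiliary. -/
def Wo (p : ℕ → II) (o : Option ℕ) : Clopens S :=
  match o with
  | none => ⊤
  | some k => d.W (p k)

theorem exists_Wo {p : ℕ → II} {Q : Clopens S} (hQ : Q ∈ d.QSet (Set.range p)) :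
    ∃ o, d.Wo p o = Q := by
  rcases hQ with rfl | ⟨_, ⟨k, rfl⟩, rfl⟩
  · exact ⟨none, rfl⟩
  · exact ⟨some k, rfl⟩

/-- The index type of the type predicates. -/
abbrev JJ : Type :=
  (Code ℕ × ℕ) ⊕ ((ℚ × ℚ) ⊕ (Unit ⊕ ((Code ℕ × ℕ × Bool × Option ℕ × ℕ) ⊕ ℕ)))

/-- The type predicates. -/
def RR (p : ℕ → II) (j : JJ) (γ : II) : Prop :=
  match j with
  | .inl (c, l) => d.atm (c.map p) l ∈ d.W γ
  | .inr (.inl (r, q)) => d.G γ r < q
  | .inr (.inr (.inl _)) => d.sgn γ = 1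
  | .inr (.inr (.inr (.inl (c, t, bit, o, n)))) =>
      ∀ x ∈ d.D (d.W γ ⊓ (d.Hb (c.map p) t bit ⊓ d.Wo p o)), x < γ → x < p n
  | .inr (.inr (.inr (.inr n))) => ∀ x ∈ d.D (d.W γ), x < γ → x < p n

theorem good_of_RR {p : ℕ → II} {γ δ : II} (h : ∀ j, (d.RR p j γ ↔ d.RR p j δ)) :
    d.Good δ (Set.range p) γ := by
  refine ⟨?_, ?_, ?_, ?_, ?_⟩
  · intro c hc l
    obtain ⟨c', rfl⟩ := exists_map_eq hc
    exact h (.inl (c', l))
  · have h1 : d.sgn γ = 1 ↔ d.sgn δ = 1 := h (.inr (.inr (.inl ())))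
    rcases d.hsgn γ with h2 | h2 <;> rcases d.hsgn δ with h3 | h3
    · rw [h2, h3]
    · exact absurd (h1.mp h2) (by rw [h3]; norm_num)
    · exact absurd (h1.mpr h3) (by rw [h2]; norm_num)
    · rw [h2, h3]
  · intro r
    have h1 : ∀ q : ℚ, d.G γ r < q ↔ d.G δ r < q := fun q => h (.inr (.inl (r, q)))
    rcases lt_trichotomy (d.G γ r) (d.G δ r) with h2 | h2 | h2
    · obtain ⟨q, hq1, hq2⟩ := exists_rat_btwn h2
      exact absurd ((h1 q).mp hq1) (not_lt.mpr hq2.le)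
    · exact h2
    · obtain ⟨q, hq1, hq2⟩ := exists_rat_btwn h2
      exact absurd ((h1 q).mpr hq1) (not_lt.mpr hq2.le)
  · intro c hc t bit Q hQ ρ hρ
    obtain ⟨c', rfl⟩ := exists_map_eq hc
    obtain ⟨o, rfl⟩ := d.exists_Wo hQ
    obtain ⟨n, rfl⟩ := hρ
    exact (h (.inr (.inr (.inr (.inl (c', t, bit, o, n)))))).mpr
  · intro ρ hρ
    obtain ⟨n, rfl⟩ := hρ
    exact (h (.inr (.inr (.inr (.inr n))))).mpr

/-- The point `δ`. -/
theorem exists_delta : ∃ δ : II,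
    (∀ C : Set II, C.Countable → (∀ x ∈ C, x < δ) → ∃ b < δ, ∀ x ∈ C, x < b) ∧
    ∀ X : Set II, X.Countable → X.Nonempty → (∀ x ∈ X, x < δ) →
      (∀ c, PosIn X c → ∀ t bit, ∀ Q ∈ d.QSet X, ∀ Q' ∈ d.QSet X,
        ∀ x ∈ d.D (Q' ⊓ (d.Hb c t bit ⊓ Q)), x < δ) ∧
      (∀ y ∈ X, ∀ x ∈ d.D (d.W y), x < δ) ∧
      ∀ b < δ, ∃ γ, b < γ ∧ γ < δ ∧ d.Good δ X γ := by
  have hex : ∀ p : ℕ → II, ∃ z : II,
      (∀ (c : Code ℕ) (t : ℕ) (bit : Bool) (o o' : Option ℕ),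
        ∀ x ∈ d.D (d.Wo p o' ⊓ (d.Hb (c.map p) t bit ⊓ d.Wo p o)), x < z) ∧
      ∀ k, ∀ x ∈ d.D (d.W (p k)), x < z := by
    intro p
    obtain ⟨z, hz⟩ := II_bound_countable
      (s := (⋃ (i : Code ℕ × ℕ × Bool × Option ℕ × Option ℕ),
        d.D (d.Wo p i.2.2.2.2 ⊓ (d.Hb (i.1.map p) i.2.1 i.2.2.1 ⊓ d.Wo p i.2.2.2.1))) ∪
        ⋃ k, d.D (d.W (p k)))
      ((Set.countable_iUnion fun _ => d.hD _).union (Set.countable_iUnion fun _ => d.hD _))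
    refine ⟨z, ?_, ?_⟩
    · intro c t bit o o' x hx
      exact hz x (Or.inl (Set.mem_iUnion.mpr ⟨(c, t, bit, o, o'), hx⟩))
    · intro k x hx
      exact hz x (Or.inr (Set.mem_iUnion.mpr ⟨k, hx⟩))
  choose e he1 he2 using hex
  obtain ⟨δ, hδ1, hδ2, hδ3⟩ := exists_closure e d.RR
  refine ⟨δ, hδ2, ?_⟩
  intro X hX hne hXδ
  obtain ⟨p, rfl⟩ := hX.exists_eq_range hne
  have hp : ∀ n, p n < δ := fun n => hXδ _ ⟨n, rfl⟩
  refine ⟨?_, ?_, ?_⟩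
  · intro c hc t bit Q hQ Q' hQ' x hx
    obtain ⟨c', rfl⟩ := exists_map_eq hc
    obtain ⟨o, rfl⟩ := d.exists_Wo hQ
    obtain ⟨o', rfl⟩ := d.exists_Wo hQ'
    exact (he1 p c' t bit o o' x hx).trans (hδ1 p hp)
  · rintro _ ⟨k, rfl⟩ x hx
    exact (he2 p k x hx).trans (hδ1 p hp)
  · intro b hb
    obtain ⟨γ, h1, h2, h3⟩ := hδ3 p hp b hb
    exact ⟨γ, h1, h2, d.good_of_RR h3⟩

end Data

end Pool.Agent.Lib.MP_45c416_gt
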