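import Pool.Agent.Lib.MP_45c416_gt.Defs

open TopologicalSpace Set

namespace Pool.Agent.Lib.MP_45c416_gt

/-- A set function on the clopen sets that is additive and has total variation at most `1`. -/
def IsCh {S : Type*} [TopologicalSpace S] (μ : Clopens S → ℝ) : Prop :=
  (∀ U V, Disjoint U V → μ (U ⊔ V) = μ U + μ V) ∧ ∀ U, μ U - μ Uᶜ ≤ 1

variable {S : Type*} [TopologicalSpace S]

theorem IsScattered.totallyDisconnected [T1Space S] (h : IsScattered S) :
    TotallyDisconnectedSpace S := by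
  refine ⟨fun t _ ht => ?_⟩
  rcases t.eq_empty_or_nonempty with rfl | hne
  · exact Set.subsingleton_empty
  obtain ⟨x, hx, U, hU, hUt⟩ := h t hne
  have hxU : x ∈ U := by
    have : x ∈ U ∩ t := by rw [hUt]; rfl
    exact this.1
  by_contra hsub
  have : ∃ y ∈ t, y ≠ x := by
    by_contra hno
    push Not at hno
    exact hsub fun a ha b hb => (hno a ha).trans (hno b hb).symm
  obtain ⟨y, hy, hyx⟩ := this
  have := ht U {x}ᶜ hU isOpen_compl_singleton
    (fun z _ => by
      by_cases hz : z = x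
      · exact Or.inl (hz ▸ hxU)
      · exact Or.inr hz) ⟨x, hx, hxU⟩ ⟨y, hy, hyx⟩
  obtain ⟨z, hzt, hzU, hzx⟩ := this
  have : z ∈ U ∩ t := ⟨hzU, hzt⟩
  rw [hUt] at this
  exact hzx this

theorem IsScattered.sum (h : IsScattered S) : IsScattered (S ⊕ S) := by
  intro A hA
  by_cases h1 : (Sum.inl ⁻¹' A : Set S).Nonempty
  · obtain ⟨x, hx, U, hU, hUA⟩ := h _ h1
    refine ⟨Sum.inl x, hx, Sum.inl '' U, isOpenMap_inl U hU, ?_⟩
    ext z
    constructor
    · rintro ⟨⟨y, hy, rfl⟩, hzA⟩
      have : y ∈ U ∩ Sum.inl ⁻¹' A := ⟨hy, hzA⟩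
      rw [hUA] at this
      have hyx : y = x := this
      rw [hyx]; rfl
    · intro hz
      have hz' : z = Sum.inl x := hz
      subst hz'
      have : x ∈ U ∩ Sum.inl ⁻¹' A := by rw [hUA]; rfl
      exact ⟨⟨x, this.1, rfl⟩, this.2⟩
  · have h2 : (Sum.inr ⁻¹' A : Set S).Nonempty := by
      obtain ⟨z, hz⟩ := hA
      rcases z with z | z
      · exact absurd ⟨z, hz⟩ h1
      · exact ⟨z, hz⟩
    obtain ⟨x, hx, U, hU, hUA⟩ := h _ h2
    refine ⟨Sum.inr x, hx, Sum.inr '' U, isOpenMap_inr U hU, ?_⟩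
    ext z
    constructor
    · rintro ⟨⟨y, hy, rfl⟩, hzA⟩
      have : y ∈ U ∩ Sum.inr ⁻¹' A := ⟨hy, hzA⟩
      rw [hUA] at this
      have hyx : y = x := this
      rw [hyx]; rfl
    · intro hz
      have hz' : z = Sum.inr x := hz
      subst hz'
      have : x ∈ U ∩ Sum.inr ⁻¹' A := by rw [hUA]; rfl
      exact ⟨⟨x, this.1, rfl⟩, this.2⟩

/-! ### Additive set functions on clopen sets -/

namespace IsCh

variable {μ : Clopens S → ℝ}

theorem bot (h : IsCh μ) : μ ⊥ = 0 := by
  have := h.1 ⊥ ⊥ disjoint_bot_left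
  simp at this
  linarith

theorem abs_sub_le (h : IsCh μ) (U : Clopens S) : |μ U - μ Uᶜ| ≤ 1 := by
  rw [abs_le]
  have h1 := h.2 U
  have h2 := h.2 Uᶜ
  rw [compl_compl] at h2
  constructor <;> linarith

theorem add_compl (h : IsCh μ) (U : Clopens S) : μ U + μ Uᶜ = μ ⊤ := by
  rw [← h.1 U Uᶜ disjoint_compl_right, sup_compl_eq_top]

theorem abs_le_one (h : IsCh μ) (U : Clopens S) : |μ U| ≤ 1 := by
  have h1 := h.abs_sub_le U
  have h2 := h.abs_sub_le ⊤
  have h3 := h.add_compl U
  rw [compl_top, h.bot, sub_zero] at h2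
  rw [abs_le] at *
  constructor <;> linarith [h1.1, h1.2, h2.1, h2.2]

theorem inf_add_sdiff (h : IsCh μ) (U V : Clopens S) : μ (U ⊓ V) + μ (U \ V) = μ U := by
  rw [← h.1 _ _ (disjoint_inf_sdiff), sup_inf_sdiff]

end IsCh

/-- The property that `μ` is nearly carried by finitely many points inside `U`. -/
def Carried (μ : Clopens S → ℝ) (U : Clopens S) : Prop :=
  ∀ ε > 0, ∃ A : Finset S, ∀ V ≤ U, (∀ a ∈ A, a ∉ V) → |μ V| ≤ ε

theorem Carried.mono {μ : Clopens S → ℝ} {U V : Clopens S} (h : Carried μ U) (hVU : V ≤ U) :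
    Carried μ V := by
  intro ε hε
  obtain ⟨A, hA⟩ := h ε hε
  exact ⟨A, fun W hW h => hA W (hW.trans hVU) h⟩

theorem Carried.sup {μ : Clopens S → ℝ} (hμ : IsCh μ) {U V : Clopens S} (hU : Carried μ U)
    (hV : Carried μ V) : Carried μ (U ⊔ V) := by
  classical
  intro ε hε
  obtain ⟨A, hA⟩ := hU (ε / 2) (by positivity)
  obtain ⟨B, hB⟩ := hV (ε / 2) (by positivity)
  refine ⟨A ∪ B, fun W hW h => ?_⟩
  rw [← hμ.inf_add_sdiff W U]
  have h1 : |μ (W ⊓ U)| ≤ ε / 2 := by
    apply hA _ inf_le_right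
    intro a ha haW
    exact h a (Finset.mem_union_left _ ha) haW.1
  have h2 : |μ (W \ U)| ≤ ε / 2 := by
    apply hB
    · rw [sdiff_le_iff]; exact hW
    · intro a ha haW
      exact h a (Finset.mem_union_right _ ha) haW.1
  calc |μ (W ⊓ U) + μ (W \ U)| ≤ |μ (W ⊓ U)| + |μ (W \ U)| := abs_add_le _ _
    _ ≤ ε := by linarith

theorem carried_of_subset_iUnion {μ : Clopens S → ℝ} (hμ : IsCh μ) {K : Set S}
    (hK : IsCompact K) (hcov : ∀ x ∈ K, ∃ U : Clopens S, Carried μ U ∧ x ∈ U) :
    ∃ U : Clopens S, K ⊆ U ∧ Carried μ U := by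
  apply hK.induction_on (p := fun s => ∃ U : Clopens S, s ⊆ U ∧ Carried μ U)
  · refine ⟨⊥, Set.empty_subset _, fun ε hε => ⟨∅, fun V hV _ => ?_⟩⟩
    rw [le_bot_iff.mp hV, hμ.bot]
    simpa using hε.le
  · rintro s t hst ⟨U, hU, hUc⟩
    exact ⟨U, hst.trans hU, hUc⟩
  · rintro s t ⟨U, hU, hUc⟩ ⟨V, hV, hVc⟩
    exact ⟨U ⊔ V, Set.union_subset (hU.trans Set.subset_union_left)
      (hV.trans Set.subset_union_right), hUc.sup hμ hVc⟩
  · intro x hx
    obtain ⟨U, hUc, hxU⟩ := hcov x hx
    exact ⟨U, mem_nhdsWithin_of_mem_nhds (U.isClopen.isOpen.mem_nhds hxU), U, subset_rfl, hUc⟩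

variable [CompactSpace S] [T2Space S]

theorem carried_top (hS : IsScattered S) {μ : Clopens S → ℝ} (hμ : IsCh μ) :
    Carried μ ⊤ := by
  classical
  have := hS.totallyDisconnected
  have key : ∀ x : S, ∃ U : Clopens S, Carried μ U ∧ x ∈ U := by
    by_contra hno
    push Not at hno
    set A : Set S := {x | ∀ U : Clopens S, Carried μ U → x ∉ U} with hAdef
    obtain ⟨x, hxA, W, hW, hWA⟩ := hS A hno
    have hxW : x ∈ W := by
      have : x ∈ W ∩ A := by rw [hWA]; rfl
      exact this.1
    obtain ⟨V, hVc, hxV, hVW⟩ := compact_exists_isClopen_in_isOpen hW hxW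
    have hlocal : ∀ y ∈ V, y ≠ x → ∃ U : Clopens S, Carried μ U ∧ y ∈ U := by
      intro y hy hyx
      by_contra hcon
      push Not at hcon
      have : y ∈ W ∩ A := ⟨hVW hy, hcon⟩
      rw [hWA] at this
      exact hyx this
    set V0 : Clopens S := ⟨V, hVc⟩ with hV0
    apply hxA V0 _ hxV
    intro ε hε
    -- nearly exhaust the variation off `x`
    set T : Set ℝ := {r | ∃ C D : Clopens S, C ≤ V0 ∧ D ≤ V0 ∧ x ∉ C ∧ x ∉ D ∧ Disjoint C D ∧
      r = μ C - μ D} with hT
    have hTne : T.Nonempty := ⟨_, ⊥, ⊥, bot_le, bot_le, fun h => h, fun h => h,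
      disjoint_bot_left, rfl⟩
    have hTb : BddAbove T := by
      refine ⟨2, ?_⟩
      rintro r ⟨C, D, -, -, -, -, -, rfl⟩
      have h1 := abs_le.mp (hμ.abs_le_one C)
      have h2 := abs_le.mp (hμ.abs_le_one D)
      linarith [h1.2, h2.1]
    obtain ⟨r, ⟨C, D, hC, hD, hxC, hxD, hCD, rfl⟩, hr⟩ :=
      exists_lt_of_lt_csSup hTne (show sSup T - ε / 2 < sSup T by linarith)
    have hex : ∀ V' ≤ V0, x ∉ V' → Disjoint V' (C ⊔ D) → |μ V'| ≤ ε / 2 := by
      intro V' hV' hxV' hdis
      have hd1 : Disjoint C V' := (hdis.mono_right le_sup_left).symm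
      have hd2 : Disjoint D V' := (hdis.mono_right le_sup_right).symm
      have h1 : μ (C ⊔ V') - μ D ≤ sSup T := by
        apply le_csSup hTb
        refine ⟨C ⊔ V', D, sup_le hC hV', hD, ?_, hxD, ?_, rfl⟩
        · intro h
          rcases h with h | h
          · exact hxC h
          · exact hxV' h
        · exact disjoint_sup_left.mpr ⟨hCD, hd2.symm⟩
      have h2 : μ C - μ (D ⊔ V') ≤ sSup T := by
        apply le_csSup hTb
        refine ⟨C, D ⊔ V', hC, sup_le hD hV', hxC, ?_, ?_, rfl⟩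
        · intro h
          rcases h with h | h
          · exact hxD h
          · exact hxV' h
        · exact disjoint_sup_right.mpr ⟨hCD, hd1⟩
      rw [hμ.1 _ _ hd1] at h1
      rw [hμ.1 _ _ hd2] at h2
      rw [abs_le]
      constructor <;> linarith
    obtain ⟨U, hU, hUc⟩ := carried_of_subset_iUnion hμ
      ((C ⊔ D : Clopens S).isClopen.isClosed.isCompact) (K := ((C ⊔ D : Clopens S) : Set S))
      (by
        intro y hy
        apply hlocal y
        · rcases hy with hy | hy
          · exact hC hy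
          · exact hD hy
        · rintro rfl
          rcases hy with hy | hy
          · exact hxC hy
          · exact hxD hy)
    obtain ⟨A0, hA0⟩ := (hUc.mono (show C ⊔ D ≤ U from hU)) (ε / 2) (by positivity)
    refine ⟨insert x A0, fun V' hV' hav => ?_⟩
    rw [← hμ.inf_add_sdiff V' (C ⊔ D)]
    have h1 : |μ (V' ⊓ (C ⊔ D))| ≤ ε / 2 := by
      apply hA0 _ inf_le_right
      intro a ha haV
      exact hav a (Finset.mem_insert_of_mem ha) haV.1
    have h2 : |μ (V' \ (C ⊔ D))| ≤ ε / 2 := by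
      apply hex
      · exact (sdiff_le).trans hV'
      · intro h
        exact hav x (Finset.mem_insert_self _ _) h.1
      · exact disjoint_sdiff_self_left
    calc |μ (V' ⊓ (C ⊔ D)) + μ (V' \ (C ⊔ D))|
        ≤ |μ (V' ⊓ (C ⊔ D))| + |μ (V' \ (C ⊔ D))| := abs_add_le _ _
      _ ≤ ε := by linarith
  obtain ⟨U, hU, hUc⟩ := carried_of_subset_iUnion hμ isCompact_univ (fun x _ => key x)
  exact hUc.mono (fun x _ => hU trivial)

/-- An additive set function of bounded variation on a scattered compact space is carried by a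
countable set. -/
theorem exists_atoms (hS : IsScattered S) {μ : Clopens S → ℝ} (hμ : IsCh μ) :
    ∃ A : Set S, A.Countable ∧ ∀ V : Clopens S, (∀ a ∈ A, a ∉ V) → μ V = 0 := by
  have h := carried_top hS hμ
  choose A hA using fun n : ℕ => h (1 / ((n : ℝ) + 1)) (by positivity)
  refine ⟨⋃ n, (A n : Set S), Set.countable_iUnion fun n => (A n).countable_toSet, ?_⟩
  intro V hV
  have : ∀ n : ℕ, |μ V| ≤ 1 / ((n : ℝ) + 1) := fun n =>
    hA n V le_top fun a ha => hV a (Set.mem_iUnion.mpr ⟨n, ha⟩)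
  have h0 : |μ V| ≤ 0 :=
    ge_of_tendsto' tendsto_one_div_add_atTop_nhds_zero_nat this
  exact abs_eq_zero.mp (le_antisymm h0 (abs_nonneg _))

/-! ### The final contradiction -/

theorem not_scattered_of_patterns (W : ℕ → Clopens S)
    (h : ∀ (N : ℕ) (ξ : ℕ → Bool), (∃ i < N, ξ i = true) → (∃ i < N, ξ i = false) →
      ∃ y : S, (∀ k < N, (y ∈ W k ↔ ξ k = true)) ∨ (∀ k < N, (y ∈ W k ↔ ξ k = false))) :
    ¬ IsScattered S := by
  classical
  intro hS
  set Ψ : S ⊕ S → (ℕ → Bool) := Sum.elim (fun y k => decide (y ∈ W k))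
    (fun y k => !decide (y ∈ W k)) with hΨ
  have hc1 : ∀ k, Continuous fun y : S => decide (y ∈ W k) := by
    intro k
    have : IsLocallyConstant fun y : S => decide (y ∈ W k) := by
      rw [IsLocallyConstant.iff_continuous]
      rw [continuous_bool_rng true]
      have : (fun y : S => decide (y ∈ W k)) ⁻¹' {true} = (W k : Set S) := by
        ext y; simp
      rw [this]
      exact (W k).isClopen
    exact this.continuous
  have hΨc : Continuous Ψ := by
    apply Continuous.sumElim
    · exact continuous_pi hc1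
    · exact continuous_pi fun k => (continuous_of_discreteTopology (f := Bool.not)).comp (hc1 k)
  have hsurj : Function.Surjective Ψ := by
    intro x
    set E : ℕ → Set (S ⊕ S) := fun N => {z | ∀ k < N, Ψ z k = x k} with hE
    have hEc : ∀ N, IsClosed (E N) := by
      intro N
      have : E N = ⋂ k, ⋂ (_ : k < N), {z | Ψ z k = x k} := by
        ext z; simp [hE]
      rw [this]
      exact isClosed_iInter fun k => isClosed_iInter fun _ =>
        isClosed_eq ((continuous_apply k).comp hΨc) continuous_const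
    have hEne : ∀ N, (E N).Nonempty := by
      intro N
      set x' : ℕ → Bool := fun k => if k < N then x k else decide (k = N) with hx'
      obtain ⟨y, hy⟩ := h (N + 2) x' ⟨N, by omega, by simp [hx']⟩ ⟨N + 1, by omega, by simp [hx']⟩
      rcases hy with hy | hy
      · refine ⟨Sum.inl y, fun k hk => ?_⟩
        have h1 := hy k (by omega)
        simp only [hx', if_pos hk] at h1
        simp only [hΨ, Sum.elim_inl]
        by_cases hyk : y ∈ W k
        · simp [hyk, h1.mp hyk]
        · have : x k ≠ true := fun hx => hyk (h1.mpr hx)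
          simp [hyk, this]
      · refine ⟨Sum.inr y, fun k hk => ?_⟩
        have h1 := hy k (by omega)
        simp only [hx', if_pos hk] at h1
        simp only [hΨ, Sum.elim_inr]
        by_cases hyk : y ∈ W k
        · simp [hyk, h1.mp hyk]
        · have : x k ≠ false := fun hx => hyk (h1.mpr hx)
          simp [hyk, this]
    obtain ⟨z, hz⟩ := IsCompact.nonempty_iInter_of_sequence_nonempty_isCompact_isClosed E
      (fun N z hz k hk => hz k (by omega)) hEne (hEc 0).isCompact hEc
    refine ⟨z, funext fun k => ?_⟩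
    exact (Set.mem_iInter.mp hz (k + 1)) k (by omega)
  set Ψ' : S ⊕ S → ULift (ℕ → Bool) := fun z => ULift.up (Ψ z) with hΨ'
  have hΨc' : Continuous Ψ' := continuous_uliftUp.comp hΨc
  have hsurj' : Function.Surjective Ψ' := by
    rintro ⟨x⟩
    obtain ⟨z, hz⟩ := hsurj x
    exact ⟨z, by rw [hΨ']; simp only [hz]⟩
  obtain ⟨E, hEcomp, hEs', hEmin'⟩ := exists_compact_surjective_zorn_subset hΨc' hsurj'
  have hEs : Ψ '' E = Set.univ := by
    apply Set.eq_univ_of_forall
    intro x
    have : ULift.up x ∈ Ψ' '' E := by rw [hEs']; trivial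
    obtain ⟨z, hz, hzx⟩ := this
    exact ⟨z, hz, congrArg ULift.down hzx⟩
  have hEmin : ∀ E₀ : Set E, E₀ ≠ Set.univ → IsClosed E₀ → E.restrict Ψ '' E₀ ≠ Set.univ := by
    intro E₀ h1 h2 h3
    apply hEmin' E₀ h1 h2
    apply Set.eq_univ_of_forall
    rintro ⟨x⟩
    have : x ∈ E.restrict Ψ '' E₀ := by rw [h3]; trivial
    obtain ⟨z, hz, hzx⟩ := this
    exact ⟨z, hz, congrArg ULift.up hzx⟩
  have hEne : E.Nonempty := by
    by_contra hne
    rw [Set.not_nonempty_iff_eq_empty] at hne
    rw [hne, Set.image_empty] at hEs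
    have : (fun _ : ℕ => true) ∈ (∅ : Set (ℕ → Bool)) := by rw [hEs]; trivial
    exact this
  obtain ⟨t, htE, U, hU, hUE⟩ := hS.sum E hEne
  set E0 : Set E := {z | (z : S ⊕ S) ≠ t} with hE0
  have hE0c : IsClosed E0 := by
    have : E0ᶜ = Subtype.val ⁻¹' U := by
      ext z
      simp only [hE0, Set.mem_compl_iff, Set.mem_setOf_eq, not_not, Set.mem_preimage]
      constructor
      · intro hz
        have : t ∈ U ∩ E := by rw [hUE]; rfl
        rw [hz]; exact this.1
      · intro hz
        have : (z : S ⊕ S) ∈ U ∩ E := ⟨hz, z.2⟩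
        rw [hUE] at this
        exact this
    rw [← isOpen_compl_iff, this]
    exact hU.preimage continuous_subtype_val
  apply hEmin E0 _ hE0c
  · -- the image of `E0` is closed and dense
    have hcl : IsClosed (E.restrict Ψ '' E0) :=
      ((hE0c.isCompact).image (hΨc.comp continuous_subtype_val)).isClosed
    have hsup : {Ψ t}ᶜ ⊆ E.restrict Ψ '' E0 := by
      intro x hx
      have : x ∈ Ψ '' E := by rw [hEs]; trivial
      obtain ⟨z, hz, rfl⟩ := this
      refine ⟨⟨z, hz⟩, ?_, rfl⟩
      intro hzt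
      apply hx
      simp only at hzt
      rw [hzt]; rfl
    have hdense : Dense ({Ψ t}ᶜ : Set (ℕ → Bool)) := by
      intro x
      by_cases hx : x = Ψ t
      · rw [mem_closure_iff_seq_limit]
        refine ⟨fun n => Function.update x n (!x n), fun n => ?_, ?_⟩
        · intro hcon
          have : Function.update x n (!x n) = Ψ t := hcon
          rw [← hx] at this
          have := congrFun this n
          simp at this
        · rw [tendsto_pi_nhds]
          intro k
          apply tendsto_const_nhds.congr'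
          filter_upwards [Filter.eventually_gt_atTop k] with n hn
          rw [Function.update_of_ne (by omega)]
      · exact subset_closure hx
    have := hdense.mono hsup
    rw [← hcl.closure_eq]
    exact this.closure_eq
  · intro hcon
    have : (⟨t, htE⟩ : E) ∈ E0 := by rw [hcon]; trivial
    exact this rfl

end Pool.Agent.Lib.MP_45c416_gt
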