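import Pool.Agent.Lib.MP_45c416_gt.Resemble

open TopologicalSpace Set

namespace Pool.Agent.Lib.MP_45c416_gt

variable {S : Type*} [TopologicalSpace S]

namespace Data

variable (d : Data S)

theorem QSet_countable {X : Set II} (hX : X.Countable) : (d.QSet X).Countable := by
  apply ((hX.image d.W).insert ⊤).mono
  rintro Q (rfl | ⟨x, hx, rfl⟩)
  · exact Or.inl rfl
  · exact Or.inr ⟨x, hx, rfl⟩

theorem QSet_mono {X Y : Set II} (h : X ⊆ Y) : d.QSet X ⊆ d.QSet Y := by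
  rintro Q (rfl | ⟨x, hx, rfl⟩)
  · exact Or.inl rfl
  · exact Or.inr ⟨x, h hx, rfl⟩

/-- The closure properties of `δ`. -/
structure IsDelta (δ : II) : Prop where
  cof : ∀ C : Set II, C.Countable → (∀ x ∈ C, x < δ) → ∃ b < δ, ∀ x ∈ C, x < b
  clo : ∀ X : Set II, X.Countable → X.Nonempty → (∀ x ∈ X, x < δ) →
      (∀ c, PosIn X c → ∀ t bit, ∀ Q ∈ d.QSet X, ∀ Q' ∈ d.QSet X,
        ∀ x ∈ d.D (Q' ⊓ (d.Hb c t bit ⊓ Q)), x < δ) ∧
      (∀ y ∈ X, ∀ x ∈ d.D (d.W y), x < δ) ∧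
      ∀ b < δ, ∃ γ, b < γ ∧ γ < δ ∧ d.Good δ X γ

/-- `b` bounds all relevant dependence sets over the parameter set `Y`. -/
structure BoundsOver (δ : II) (Y : Set II) (b : II) : Prop where
  b1 : ∀ c, PosIn Y c → ∀ t bit, ∀ Q ∈ d.QSet Y, ∀ Q' ∈ d.QSet Y,
        ∀ x ∈ d.D (Q' ⊓ (d.Hb c t bit ⊓ Q)), x < b
  b2 : ∀ y ∈ Y, ∀ x ∈ d.D (d.W y), x < b
  b3 : ∀ c, PosIn Y c → ∀ t bit, ∀ Q ∈ d.QSet Y,
        ∀ x ∈ d.D (d.W δ ⊓ (d.Hb c t bit ⊓ Q)), x < δ → x < b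
  b4 : ∀ y ∈ Y, y < b

theorem exists_boundsOver {δ : II} (hδ : d.IsDelta δ) {Y : Set II} (hY : Y.Countable)
    (hne : Y.Nonempty) (hYδ : ∀ x ∈ Y, x < δ) : ∃ b < δ, d.BoundsOver δ Y b := by
  obtain ⟨h1, h2, -⟩ := hδ.clo Y hY hne hYδ
  set C1 : Set II := ⋃ c ∈ {c : Code II | PosIn Y c}, ⋃ (t : ℕ), ⋃ (bit : Bool), ⋃ Q ∈ d.QSet Y,
    ⋃ Q' ∈ d.QSet Y, d.D (Q' ⊓ (d.Hb c t bit ⊓ Q)) with hC1
  set C2 : Set II := ⋃ y ∈ Y, d.D (d.W y) with hC2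
  set C3 : Set II := ⋃ c ∈ {c : Code II | PosIn Y c}, ⋃ (t : ℕ), ⋃ (bit : Bool), ⋃ Q ∈ d.QSet Y,
    (d.D (d.W δ ⊓ (d.Hb c t bit ⊓ Q)) ∩ {x | x < δ}) with hC3
  have hc := countable_codes hY hne
  have hq := d.QSet_countable hY
  have hC1c : C1.Countable := by
    refine hc.biUnion fun c _ => Set.countable_iUnion fun t => Set.countable_iUnion fun bit =>
      hq.biUnion fun Q _ => hq.biUnion fun Q' _ => d.hD _
  have hC2c : C2.Countable := hY.biUnion fun y _ => d.hD _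
  have hC3c : C3.Countable := by
    refine hc.biUnion fun c _ => Set.countable_iUnion fun t => Set.countable_iUnion fun bit =>
      hq.biUnion fun Q _ => (d.hD _).mono Set.inter_subset_left
  obtain ⟨b, hb, hbb⟩ := hδ.cof (C1 ∪ C2 ∪ C3 ∪ Y) (((hC1c.union hC2c).union hC3c).union hY) (by
    rintro x (((hx | hx) | hx) | hx)
    · simp only [hC1, Set.mem_iUnion] at hx
      obtain ⟨c, hc, t, bit, Q, hQ, Q', hQ', hx⟩ := hx
      exact h1 c hc t bit Q hQ Q' hQ' x hx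
    · simp only [hC2, Set.mem_iUnion] at hx
      obtain ⟨y, hy, hx⟩ := hx
      exact h2 y hy x hx
    · simp only [hC3, Set.mem_iUnion] at hx
      obtain ⟨c, hc, t, bit, Q, hQ, hx⟩ := hx
      exact hx.2
    · exact hYδ x hx)
  refine ⟨b, hb, ?_, ?_, ?_, ?_⟩
  · intro c hc t bit Q hQ Q' hQ' x hx
    apply hbb
    refine Or.inl (Or.inl (Or.inl ?_))
    simp only [hC1, Set.mem_iUnion]
    exact ⟨c, hc, t, bit, Q, hQ, Q', hQ', hx⟩
  · intro y hy x hx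
    apply hbb
    refine Or.inl (Or.inl (Or.inr ?_))
    simp only [hC2, Set.mem_iUnion]
    exact ⟨y, hy, hx⟩
  · intro c hc t bit Q hQ x hx hxδ
    apply hbb
    refine Or.inl (Or.inr ?_)
    simp only [hC3, Set.mem_iUnion]
    exact ⟨c, hc, t, bit, Q, hQ, hx, hxδ⟩
  · intro y hy
    exact hbb y (Or.inr hy)

/-- The sequence of detectors. -/
structure IsSeq (δ : II) (X : ℕ → Set II) (b γ : ℕ → II) : Prop where
  sub : ∀ n, X n ⊆ X (n + 1)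
  bX : ∀ n, b n ∈ X n
  gX : ∀ n, γ n ∈ X (n + 1)
  Xδ : ∀ n, ∀ x ∈ X n, x < δ
  bg : ∀ n, b n < γ n
  gb : ∀ n, γ n < b (n + 1)
  good : ∀ n, d.Good δ (X n) (γ n)
  bnd : ∀ n, d.BoundsOver δ (insert (γ n) (X n)) (b (n + 1))

theorem exists_seq {δ : II} (hδ : d.IsDelta δ) {X₀ : Set II} (hX₀ : X₀.Countable)
    (hX₀δ : ∀ x ∈ X₀, x < δ) {b₀ : II} (hb₀ : b₀ ∈ X₀) :
    ∃ (X : ℕ → Set II) (b γ : ℕ → II), X 0 = X₀ ∧ b 0 = b₀ ∧ d.IsSeq δ X b γ := by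
  classical
  set St : Type := {s : Set II × II // s.1.Countable ∧ (∀ x ∈ s.1, x < δ) ∧ s.2 ∈ s.1} with hSt
  have hstep : ∀ s : St, ∃ (γ b' : II), s.1.2 < γ ∧ γ < b' ∧ b' < δ ∧ d.Good δ s.1.1 γ ∧
      d.BoundsOver δ (insert γ s.1.1) b' := by
    rintro ⟨⟨X, b⟩, hX, hXδ, hb⟩
    simp only at hX hXδ hb ⊢
    obtain ⟨-, -, h3⟩ := hδ.clo X hX ⟨b, hb⟩ hXδ
    obtain ⟨γ, hbγ, hγδ, hgood⟩ := h3 b (hXδ b hb)
    obtain ⟨b', hb', hbo⟩ := d.exists_boundsOver hδ (hX.insert γ) ⟨γ, Or.inl rfl⟩ (by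
      rintro x (rfl | hx)
      · exact hγδ
      · exact hXδ x hx)
    exact ⟨γ, b', hbγ, hbo.b4 γ (Or.inl rfl), hb', hgood, hbo⟩
  choose g b' h1 h2 h3 h4 h5 using hstep
  set next : St → St := fun s => ⟨(insert (b' s) (insert (g s) s.1.1), b' s),
    (s.2.1.insert _).insert _, by
      rintro x (rfl | rfl | hx)
      · exact h3 s
      · exact (h2 s).trans (h3 s)
      · exact s.2.2.1 x hx, Or.inl rfl⟩ with hnext
  set s₀ : St := ⟨(X₀, b₀), hX₀, hX₀δ, hb₀⟩ with hs₀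
  set st : ℕ → St := fun n => next^[n] s₀ with hst
  have hsucc : ∀ n, st (n + 1) = next (st n) := fun n => Function.iterate_succ_apply' _ _ _
  refine ⟨fun n => (st n).1.1, fun n => (st n).1.2, fun n => g (st n), rfl, rfl, ?_⟩
  refine ⟨?_, ?_, ?_, ?_, ?_, ?_, ?_, ?_⟩
  · intro n x hx
    simp only [hsucc]
    exact Or.inr (Or.inr hx)
  · intro n
    exact (st n).2.2.2
  · intro n
    simp only [hsucc]
    exact Or.inr (Or.inl rfl)
  · intro n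
    exact (st n).2.2.1
  · intro n
    exact h1 (st n)
  · intro n
    simp only [hsucc]
    exact h2 (st n)
  · intro n
    exact h4 (st n)
  · intro n
    simp only [hsucc]
    exact h5 (st n)

end Data

end Pool.Agent.Lib.MP_45c416_gt
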